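import Pool.Agent.Q1.QuantumCI.Lift

/-!
# Quantum complete intersections
-/

namespace Q1.QuantumCI

open Finset MulOpposite

universe u

/-- The defining relations of a quantum complete intersection. -/
inductive QRel {K : Type u} [Field K] {n : ℕ} (a : Fin n → ℕ) (q : Fin n → Fin n → K) :
    FreeAlgebra K (Fin n) → FreeAlgebra K (Fin n) → Prop
  | power (i : Fin n) : QRel a q (FreeAlgebra.ι K i ^ a i) 0
  | commute (i j : Fin n) (h : j < i) :
      QRel a q (FreeAlgebra.ι K i * FreeAlgebra.ι K j +
        q i j • (FreeAlgebra.ι K j * FreeAlgebra.ι K i)) 0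

/-- The quantum complete intersection: the free algebra modulo `x i ^ a i` and
`x i * x j + q i j • (x j * x i)` for `j < i`. -/
abbrev QCI {K : Type u} [Field K] {n : ℕ} (a : Fin n → ℕ) (q : Fin n → Fin n → K) : Type u :=
  RingQuot (QRel a q)

variable {K : Type u} [Field K] {n : ℕ} (a : Fin n → ℕ) (q : Fin n → Fin n → K)

/-- generators -/
noncomputable def gen (i : Fin n) : QCI a q := RingQuot.mkAlgHom K (QRel a q) (FreeAlgebra.ι K i)

/-- commutation scalars -/
noncomputable def psc (i j : Fin n) : K := if i < j then -q j i else if j < i then (-q i j)⁻¹ else 1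

theorem psc_self (i : Fin n) : psc q i i = 1 := by simp [psc]

theorem psc_mul (hq : ∀ i j, j < i → q i j ≠ 0) (i j : Fin n) : psc q i j * psc q j i = 1 := by
  rcases lt_trichotomy i j with h | h | h
  · rw [psc, if_pos h, psc, if_neg h.asymm, if_pos h, mul_inv_cancel₀ (neg_ne_zero.2 (hq _ _ h))]
  · subst h; simp [psc]
  · rw [psc, if_neg h.asymm, if_pos h, psc, if_pos h, inv_mul_cancel₀ (neg_ne_zero.2 (hq _ _ h))]

theorem gen_pow (i : Fin n) : gen a q i ^ a i = 0 := by
  rw [gen, ← map_pow, RingQuot.mkAlgHom_rel K (QRel.power i), map_zero]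

theorem gen_comm (i j : Fin n) (h : j < i) : gen a q i * gen a q j = -q i j • (gen a q j * gen a q i) := by
  have := RingQuot.mkAlgHom_rel K (QRel.commute (a := a) (q := q) i j h)
  rw [map_add, map_mul, map_smul, map_mul, map_zero] at this
  exact (eq_neg_of_add_eq_zero_left this).trans (neg_smul (q i j) (gen a q j * gen a q i)).symm

theorem gen_psc (hq : ∀ i j, j < i → q i j ≠ 0) (i j : Fin n) :
    gen a q i * gen a q j = psc q j i • (gen a q j * gen a q i) := by
  rcases lt_trichotomy j i with h | h | h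
  · rw [gen_comm _ _ _ _ h, psc, if_pos h]
  · subst h; rw [psc_self, one_smul]
  · have h1 := gen_comm a q j i h
    have h2 : psc q i j • (gen a q i * gen a q j) = gen a q j * gen a q i := by
      rw [h1, psc, if_pos h]
    rw [← h2, smul_smul, psc_mul q hq, one_smul]

/-- span of the powers of a generator -/
noncomputable def pw (i : Fin n) : Submodule K (QCI a q) :=
  Submodule.span K (Set.range fun r : Fin (a i) => gen a q i ^ (r : ℕ))

/-- span of a generator -/
noncomputable def sg (i : Fin n) : Submodule K (QCI a q) := Submodule.span K {gen a q i}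

theorem pw_fg (i : Fin n) : (pw a q i).FG := Submodule.fg_span (Set.finite_range _)

theorem pw_sg_self (i : Fin n) : pw a q i * sg a q i ≤ pw a q i := by
  rw [pw, sg, Submodule.span_mul_span, Submodule.span_le]
  rintro _ ⟨_, ⟨r, rfl⟩, _, rfl, rfl⟩
  simp only [← pow_succ]
  rcases Nat.lt_or_ge (r + 1) (a i) with h | h
  · exact Submodule.subset_span ⟨⟨r + 1, h⟩, rfl⟩
  · have : (r : ℕ) + 1 = a i := by have := r.2; omega
    rw [this, gen_pow]
    exact Submodule.zero_mem _

theorem pw_sg_ne (hq : ∀ i j, j < i → q i j ≠ 0) (i j : Fin n) :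
    pw a q i * sg a q j ≤ sg a q j * pw a q i := by
  rw [pw, sg, Submodule.span_mul_span, Submodule.span_le]
  rintro _ ⟨_, ⟨r, rfl⟩, _, rfl, rfl⟩
  have h1 : ∀ k : ℕ, gen a q i ^ k * gen a q j = psc q j i ^ k • (gen a q j * gen a q i ^ k) := by
    intro k
    induction k with
    | zero => simp
    | succ k ih =>
      rw [pow_succ, mul_assoc, gen_psc a q hq, mul_smul_comm, ← mul_assoc, ih, smul_mul_assoc,
        smul_smul, mul_assoc, pow_succ, mul_comm (psc q j i)]
  simp only [h1]
  exact Submodule.smul_mem _ _ (Submodule.mul_mem_mul (Submodule.mem_span_singleton_self _)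
    (Submodule.subset_span ⟨r, rfl⟩))

theorem prod_sg_notMem (hq : ∀ i j, j < i → q i j ≠ 0) (l : List (Fin n)) (j : Fin n) :
    (l.map (pw a q)).prod * sg a q j ≤ sg a q j * (l.map (pw a q)).prod := by
  induction l with
  | nil => simp
  | cons i l ih =>
    rw [List.map_cons, List.prod_cons, mul_assoc]
    calc pw a q i * ((l.map (pw a q)).prod * sg a q j)
        ≤ pw a q i * (sg a q j * (l.map (pw a q)).prod) := mul_le_mul_right ih _
      _ = (pw a q i * sg a q j) * (l.map (pw a q)).prod := by rw [mul_assoc]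
      _ ≤ (sg a q j * pw a q i) * (l.map (pw a q)).prod :=
          mul_le_mul_left (pw_sg_ne a q hq i j) _
      _ = _ := by rw [mul_assoc]

theorem prod_sg_mem (hq : ∀ i j, j < i → q i j ≠ 0) (l : List (Fin n)) (j : Fin n) (hj : j ∈ l) :
    (l.map (pw a q)).prod * sg a q j ≤ (l.map (pw a q)).prod := by
  induction l with
  | nil => simp at hj
  | cons i l ih =>
    rw [List.map_cons, List.prod_cons, mul_assoc]
    by_cases hl : j ∈ l
    · exact mul_le_mul_right (ih hl) _
    · have hij : j = i := by
        rcases List.mem_cons.1 hj with h | h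
        · exact h
        · exact absurd h hl
      subst hij
      calc pw a q j * ((l.map (pw a q)).prod * sg a q j)
          ≤ pw a q j * (sg a q j * (l.map (pw a q)).prod) :=
            mul_le_mul_right (prod_sg_notMem a q hq l j) _
        _ = (pw a q j * sg a q j) * (l.map (pw a q)).prod := by rw [mul_assoc]
        _ ≤ _ := mul_le_mul_left (pw_sg_self a q j) _

theorem prod_fg (l : List (Fin n)) : ((l.map (pw a q)).prod).FG := by
  induction l with
  | nil =>
    rw [List.map_nil, List.prod_nil, Submodule.one_eq_span]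
    exact Submodule.fg_span_singleton _
  | cons i l ih =>
    rw [List.map_cons, List.prod_cons]
    exact (pw_fg a q i).mul ih

theorem one_mem_prod (ha : ∀ i, 1 ≤ a i) (l : List (Fin n)) :
    (1 : QCI a q) ∈ (l.map (pw a q)).prod := by
  induction l with
  | nil =>
    rw [List.map_nil, List.prod_nil, Submodule.one_eq_span]
    exact Submodule.mem_span_singleton_self _
  | cons i l ih =>
    rw [List.map_cons, List.prod_cons, ← one_mul (1 : QCI a q)]
    exact Submodule.mul_mem_mul (Submodule.subset_span ⟨⟨0, ha i⟩, by simp⟩) ih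

theorem finite_QCI (ha : ∀ i, 1 ≤ a i) (hq : ∀ i j, j < i → q i j ≠ 0) :
    Module.Finite K (QCI a q) := by
  have h1 : ∀ f : FreeAlgebra K (Fin n), ∀ w ∈ ((List.finRange n).map (pw a q)).prod,
      w * RingQuot.mkAlgHom K (QRel a q) f ∈ ((List.finRange n).map (pw a q)).prod := by
    intro f
    induction f using FreeAlgebra.induction with
    | grade0 r =>
      intro w hw
      rw [AlgHom.commutes, ← Algebra.commutes, ← Algebra.smul_def]
      exact Submodule.smul_mem _ _ hw
    | grade1 i =>
      intro w hw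
      exact prod_sg_mem a q hq _ i (List.mem_finRange i)
        (Submodule.mul_mem_mul hw (Submodule.mem_span_singleton_self _))
    | mul f g hf hg =>
      intro w hw
      rw [map_mul, ← mul_assoc]
      exact hg _ (hf _ hw)
    | add f g hf hg =>
      intro w hw
      rw [map_add, mul_add]
      exact Submodule.add_mem _ (hf _ hw) (hg _ hw)
  have h2 : ((List.finRange n).map (pw a q)).prod = ⊤ := by
    rw [Submodule.eq_top_iff']
    intro x
    obtain ⟨f, rfl⟩ := RingQuot.mkAlgHom_surjective K (QRel a q) x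
    rw [← one_mul (RingQuot.mkAlgHom K (QRel a q) f)]
    exact h1 f 1 (one_mem_prod a q ha _)
  exact ⟨h2 ▸ prod_fg a q _⟩

/-- generators of the opposite algebra -/
noncomputable def zg (i : Fin n) : (QCI a q)ᵐᵒᵖ := op (gen a q i)

theorem zg_comm (hq : ∀ i j, j < i → q i j ≠ 0) (i j : Fin n) :
    zg a q i * zg a q j = psc q i j • (zg a q j * zg a q i) := by
  rw [zg, zg, ← op_mul, ← op_mul, gen_psc a q hq, op_smul]

theorem zg_pow (i : Fin n) : zg a q i ^ a i = 0 := by
  rw [zg, ← op_pow, gen_pow, op_zero]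

variable {a q}

/-- Operators satisfying the relations define a module structure. -/
theorem exists_rep {N : Type*} [AddCommGroup N] [Module K N]
    (Y : Fin n → Module.End K N) (hY : Rels Y (psc q) a) :
    ∃ ρ : (QCI a q)ᵐᵒᵖ →ₐ[K] Module.End K N, ∀ i, ρ (zg a q i) = Y i := by
  let φ : FreeAlgebra K (Fin n) →ₐ[K] (Module.End K N)ᵐᵒᵖ := FreeAlgebra.lift K fun i => op (Y i)
  have hφ : ∀ ⦃x y⦄, QRel a q x y → φ x = φ y := by
    intro x y h
    cases h with
    | power i =>
      rw [map_pow, FreeAlgebra.lift_ι_apply, ← op_pow, hY.pow, op_zero, map_zero]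
    | commute i j h =>
      rw [map_add, map_smul, map_mul, map_mul, FreeAlgebra.lift_ι_apply, FreeAlgebra.lift_ι_apply,
        ← op_mul, ← op_mul, hY.comm j i, psc, if_pos h, neg_smul, op_neg, op_smul, map_zero,
        neg_add_cancel]
  refine ⟨AlgHom.opComm (RingQuot.liftAlgHom K ⟨φ, hφ⟩), fun i => ?_⟩
  change unop (RingQuot.liftAlgHom K ⟨φ, hφ⟩ (gen a q i)) = Y i
  rw [gen, RingQuot.liftAlgHom_mkAlgHom_apply]
  rw [FreeAlgebra.lift_ι_apply, unop_op]

/-- Linear maps commuting with the generators are module maps. -/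
theorem linear_of_gen {M P : Type*} [AddCommGroup M] [Module K M] [Module (QCI a q)ᵐᵒᵖ M]
    [IsScalarTower K (QCI a q)ᵐᵒᵖ M] [AddCommGroup P] [Module K P] [Module (QCI a q)ᵐᵒᵖ P]
    [IsScalarTower K (QCI a q)ᵐᵒᵖ P] (h : M →ₗ[K] P)
    (hh : ∀ i x, h (zg a q i • x) = zg a q i • h x) (b : (QCI a q)ᵐᵒᵖ) (x : M) :
    h (b • x) = b • h x := by
  obtain ⟨f, hf⟩ := RingQuot.mkAlgHom_surjective K (QRel a q) (unop b)
  have hb : b = op (RingQuot.mkAlgHom K (QRel a q) f) := by rw [hf, op_unop]
  subst hb
  clear hf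
  induction f using FreeAlgebra.induction generalizing x with
  | grade0 r =>
    have h1 : op (RingQuot.mkAlgHom K (QRel a q) (algebraMap K _ r)) =
        algebraMap K (QCI a q)ᵐᵒᵖ r := by
      rw [AlgHom.commutes]
      rfl
    rw [h1, algebraMap_smul, algebraMap_smul, map_smul]
  | grade1 i => exact hh i x
  | mul f g hf hg =>
    rw [map_mul, op_mul, mul_smul, mul_smul, hg, hf]
  | add f g hf hg =>
    rw [map_add, op_add, add_smul, add_smul, map_add, hf, hg]

end Q1.QuantumCI
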