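import Mathlib

/-!
# Bivariate polynomials acting through two commuting operators, and a product formula
-/

namespace Q1.QuantumCI

open Finset Polynomial

variable {F : Type*} [Field F] {E : Type*} [Ring E] [Algebra F E]

theorem commute_aeval {L R : E} (h : Commute L R) (f : F[X]) : Commute (aeval L f) R := by
  induction f using Polynomial.induction_on' with
  | add p q hp hq => rw [map_add]; exact hp.add_left hq
  | monomial n c =>
    rw [aeval_monomial]
    exact Commute.mul_left (Algebra.commutes c R) (h.pow_left n)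

/-- evaluation of a polynomial in two variables at two commuting elements -/
noncomputable def bi {L R : E} (h : Commute L R) : F[X][X] →+* E :=
  Polynomial.eval₂RingHom' (aeval L : F[X] →ₐ[F] E).toRingHom R (fun f => commute_aeval h f)

theorem bi_X {L R : E} (h : Commute L R) : bi (F := F) h X = R := by
  simp [bi, Polynomial.eval₂RingHom']

theorem bi_C {L R : E} (h : Commute L R) (f : F[X]) : bi (F := F) h (C f) = aeval L f := by
  simp [bi, Polynomial.eval₂RingHom']

/-- the linear form `x - c y` -/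
noncomputable def lf (c : F) : F[X][X] := C X - C (C c) * X

theorem bi_lf {L R : E} (h : Commute L R) (c : F) : bi (F := F) h (lf c) = L - c • R := by
  rw [lf, map_sub, map_mul, bi_X, bi_C, bi_C, aeval_X, aeval_C, Algebra.smul_def]

/-- the geometric sum `∑ x ^ r (c y) ^ (a - 1 - r)` -/
noncomputable def gs (a : ℕ) (c : F) : F[X][X] :=
  ∑ r ∈ range a, (C X) ^ r * (C (C c) * X) ^ (a - 1 - r)

theorem bi_gs {L R : E} (h : Commute L R) (a : ℕ) (c : F) :
    bi (F := F) h (gs a c) = ∑ r ∈ range a, L ^ r * (c • R) ^ (a - 1 - r) := by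
  rw [gs, map_sum]
  refine sum_congr rfl fun r _ => ?_
  rw [map_mul, map_pow, map_pow, map_mul, bi_X, bi_C, bi_C, aeval_X, aeval_C, Algebra.smul_def]

theorem lf_ne_zero (c : F) : lf c ≠ 0 := by
  intro h
  have h0 := congrArg (fun f => f.coeff 0) h
  simp [lf] at h0

theorem prod_field {Q : Type*} [Field Q] [Algebra F Q] {a : ℕ} {c : ℕ → F}
    (hc : ∏ t ∈ range a, (X - C (c t)) = (X : F[X]) ^ a - 1) (x y : Q) (hy : y ≠ 0) :
    ∏ t ∈ range a, (x - algebraMap F Q (c t) * y) = x ^ a - y ^ a := by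
  have h1 : ∏ t ∈ range a, (x / y - algebraMap F Q (c t)) = (x / y) ^ a - 1 := by
    have := congrArg (aeval (x / y)) hc
    simpa [map_prod] using this
  have h2 : ∀ t ∈ range a, (x - algebraMap F Q (c t) * y) = y * (x / y - algebraMap F Q (c t)) := by
    intro t _
    field_simp
  rw [prod_congr rfl h2, prod_mul_distrib, h1]
  simp only [prod_const, card_range]
  rw [mul_sub, mul_one, div_pow, mul_div_cancel₀ _ (pow_ne_zero a hy)]

theorem prod_domain {B : Type*} [CommRing B] [IsDomain B] [Algebra F B] {a : ℕ} {c : ℕ → F}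
    (hc : ∏ t ∈ range a, (X - C (c t)) = (X : F[X]) ^ a - 1) (x y : B) (hy : y ≠ 0) :
    ∏ t ∈ range a, (x - algebraMap F B (c t) * y) = x ^ a - y ^ a := by
  have hinj := IsFractionRing.injective B (FractionRing B)
  apply hinj
  have h := prod_field (Q := FractionRing B) hc (algebraMap B _ x) (algebraMap B _ y)
    (by rwa [Ne, map_eq_zero_iff _ hinj])
  rw [map_sub, map_pow, map_pow, ← h, map_prod]
  refine prod_congr rfl fun t _ => ?_
  rw [map_sub, map_mul, ← IsScalarTower.algebraMap_apply]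

theorem prod_lf {a : ℕ} {c : ℕ → F}
    (hc : ∏ t ∈ range a, (X - C (c t)) = (X : F[X]) ^ a - 1) (μ : F) (hμ : μ ≠ 0) :
    ∏ t ∈ range a, lf (c t * μ) = (C X : F[X][X]) ^ a - (C (C μ) * X) ^ a := by
  have hy : (C (C μ) * X : F[X][X]) ≠ 0 :=
    mul_ne_zero (by simpa using hμ) X_ne_zero
  rw [← prod_domain hc (C X : F[X][X]) (C (C μ) * X) hy]
  refine prod_congr rfl fun t _ => ?_
  have : algebraMap F F[X][X] (c t) = C (C (c t)) := rfl
  rw [lf, this, ← mul_assoc, ← C_mul, ← C_mul]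

theorem root_pow {a : ℕ} {c : ℕ → F}
    (hc : ∏ t ∈ range a, (X - C (c t)) = (X : F[X]) ^ a - 1) {τ : ℕ} (hτ : τ < a) :
    c τ ^ a = 1 := by
  have h := congrArg (eval (c τ)) hc
  rw [eval_prod, prod_eq_zero (mem_range.2 hτ) (by simp)] at h
  simp at h
  exact (sub_eq_zero.mp h.symm)

theorem gs_eq {a : ℕ} {c : ℕ → F}
    (hc : ∏ t ∈ range a, (X - C (c t)) = (X : F[X]) ^ a - 1) {μ : F} (hμ : μ ≠ 0) {τ : ℕ}
    (hτ : τ < a) : gs a (c τ * μ) = ∏ t ∈ (range a).erase τ, lf (c t * μ) := by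
  have h1 : lf (c τ * μ) * gs a (c τ * μ) =
      lf (c τ * μ) * ∏ t ∈ (range a).erase τ, lf (c t * μ) := by
    rw [mul_prod_erase (range a) (fun t => lf (c t * μ)) (mem_range.2 hτ), prod_lf hc μ hμ, lf, gs,
      Commute.mul_geom_sum₂ (Commute.all _ _)]
    congr 1
    rw [mul_pow, mul_pow, ← C_pow, ← C_pow, ← C_pow, ← C_pow, mul_pow, root_pow hc hτ, one_mul]
  exact mul_left_cancel₀ (lf_ne_zero _) h1

theorem gs_dvd {a : ℕ} {c : ℕ → F}
    (hc : ∏ t ∈ range a, (X - C (c t)) = (X : F[X]) ^ a - 1) {μ : F} (hμ : μ ≠ 0) {τ : ℕ}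
    (hτ : τ < a) : ∏ t ∈ range τ, lf (c t * μ) ∣ gs a (c τ * μ) := by
  rw [gs_eq hc hμ hτ]
  refine prod_dvd_prod_of_subset _ _ _ ?_
  intro t ht
  rw [mem_range] at ht
  rw [mem_erase, mem_range]
  omega

theorem gs_zero {a : ℕ} {c : ℕ → F}
    (hc : ∏ t ∈ range a, (X - C (c t)) = (X : F[X]) ^ a - 1) {μ : F} (hμ : μ ≠ 0)
    (h0 : c 0 = 1) (ha : 0 < a) : gs a μ = ∏ t ∈ range (a - 1), lf (c (t + 1) * μ) := by
  have h1 := gs_eq hc hμ ha
  rw [h0, one_mul] at h1
  rw [h1]
  obtain ⟨b, rfl⟩ : ∃ b, a = b + 1 := ⟨a - 1, by omega⟩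
  have h2 := mul_prod_erase (range (b + 1)) (fun t => lf (c t * μ)) (mem_range.2 ha)
  rw [prod_range_succ'] at h2
  have h3 := mul_left_cancel₀ (lf_ne_zero _) (h2.trans (mul_comm _ _))
  rw [h3]
  rfl

end Q1.QuantumCI
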