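import Pool.Agent.Q1.QuantumCI.Torus

/-!
# Base change to the algebraic closure and descent
-/

namespace Q1.QuantumCI

open Finset Polynomial

section Nat

variable {K F : Type*} [Field K] [Field F] {N N' : Type*} [AddCommGroup N] [Module F N]
  [AddCommGroup N'] [Module K N'] {ι : Type*}

theorem pow_map {σ : K →+* F} (T : N →+ N') (hs : ∀ (k : K) x, T (σ k • x) = k • T x)
    (A : Module.End F N) (A' : Module.End K N')
    (hA : ∀ x, T (A x) = A' (T x)) (k : K) (r : ℕ) (x : N) :
    T (((σ k • A) ^ r) x) = ((k • A') ^ r) (T x) := by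
  induction r with
  | zero => simp
  | succ r ih =>
    rw [pow_succ', Module.End.mul_apply, LinearMap.smul_apply, hs, hA, ih, pow_succ',
      Module.End.mul_apply, LinearMap.smul_apply]

theorem tr1_map {σ : K →+* F} (T : N →+ N') (hs : ∀ (k : K) x, T (σ k • x) = k • T x)
    (L R : Module.End F N) (L' R' : Module.End K N')
    (hL : ∀ x, T (L x) = L' (T x)) (hR : ∀ x, T (R x) = R' (T x)) (a : ℕ) (k : K) (x : N) :
    T (tr1 L R a (σ k) x) = tr1 L' R' a k (T x) := by
  unfold tr1
  rw [LinearMap.sum_apply, LinearMap.sum_apply, map_sum]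
  refine sum_congr rfl fun r _ => ?_
  rw [Module.End.mul_apply, Module.End.mul_apply, ← pow_map T hs R R' hR]
  have := pow_map T hs L L' hL 1 r (((σ k • R) ^ (a - 1 - r)) x)
  rw [map_one, one_smul, one_smul] at this
  exact this

theorem tr_map {σ : K →+* F} (T : N →+ N') (hs : ∀ (k : K) x, T (σ k • x) = k • T x)
    (L R : ℕ → Module.End F N) (L' R' : ℕ → Module.End K N') (p : ℕ → ℕ → K) (a : ℕ → ℕ)
    (hL : ∀ i x, T (L i x) = L' i (T x)) (hR : ∀ i x, T (R i x) = R' i (T x)) (m : ℕ) (x : N) :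
    T (tr L R (fun i j => σ (p i j)) a m x) = tr L' R' p a m (T x) := by
  induction m generalizing x with
  | zero => simp [tr]
  | succ m ih =>
    have hg : gam (fun i j => σ (p i j)) a m m = σ (gam p a m m) := by
      simp [gam, map_prod]
    rw [tr, tr, Module.End.mul_apply, Module.End.mul_apply, ih, hg,
      tr1_map T hs _ _ _ _ (hL m) (hR m)]

theorem Coc.map {σ : K →+* F} (T : N →+ N') (hs : ∀ (k : K) x, T (σ k • x) = k • T x)
    {L R : ι → Module.End F N} {L' R' : ι → Module.End K N'} {p : ι → ι → K} {a : ι → ℕ}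
    (hL : ∀ i x, T (L i x) = L' i (T x)) (hR : ∀ i x, T (R i x) = R' i (T x)) {δ : ι → N}
    (h : Coc L R (fun i j => σ (p i j)) a (fun _ => 1) δ) :
    Coc L' R' p a (fun _ => 1) fun i => T (δ i) := by
  refine ⟨fun i j => ?_, fun i => ?_⟩
  · have := congrArg T (h.1 i j)
    simp only [one_smul, map_add, hs, hL, hR] at this
    simp only [one_smul]
    exact this
  · have := congrArg T (h.2 i)
    rw [map_sum, map_zero] at this
    rw [← this]
    refine sum_congr rfl fun r _ => ?_
    rw [Module.End.mul_apply, Module.End.mul_apply]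
    have h1 := pow_map T hs (L i) (L' i) (hL i) 1 r ((((1 : F) • R i) ^ (a i - 1 - r)) (δ i))
    have h2 := pow_map T hs (R i) (R' i) (hR i) 1 (a i - 1 - r) (δ i)
    simp only [map_one, one_smul] at h1 h2 ⊢
    rw [h1, h2]

end Nat

section Matrix

variable {K F : Type*} [Field K] [Field F] [Algebra K F] {m : Type*} [Fintype m] [DecidableEq m]
  {ι : Type*}

/-- a functional applied to all entries -/
def mpf (φ : F →ₗ[K] K) : Matrix m m F →+ Matrix m m K := φ.toAddMonoidHom.mapMatrix

theorem mpf_apply (φ : F →ₗ[K] K) (M : Matrix m m F) (i j : m) : mpf φ M i j = φ (M i j) := rfl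

theorem mpf_left (φ : F →ₗ[K] K) (A : Matrix m m K) (M : Matrix m m F) :
    mpf φ (A.map (algebraMap K F) * M) = A * mpf φ M := by
  refine Matrix.ext fun i j => ?_
  rw [mpf_apply, Matrix.mul_apply, Matrix.mul_apply, map_sum]
  refine sum_congr rfl fun r _ => ?_
  rw [mpf_apply, Matrix.map_apply, ← Algebra.smul_def, map_smul, smul_eq_mul]

theorem mpf_right (φ : F →ₗ[K] K) (A : Matrix m m K) (M : Matrix m m F) :
    mpf φ (M * A.map (algebraMap K F)) = mpf φ M * A := by
  refine Matrix.ext fun i j => ?_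
  rw [mpf_apply, Matrix.mul_apply, Matrix.mul_apply, map_sum]
  refine sum_congr rfl fun r _ => ?_
  rw [mpf_apply, Matrix.map_apply, mul_comm, ← Algebra.smul_def, map_smul, smul_eq_mul, mul_comm]

theorem mpf_smul (φ : F →ₗ[K] K) (k : K) (M : Matrix m m F) :
    mpf φ (algebraMap K F k • M) = k • mpf φ M := by
  refine Matrix.ext fun i j => ?_
  rw [mpf_apply, Matrix.smul_apply, Matrix.smul_apply, mpf_apply, smul_eq_mul, ← Algebra.smul_def,
    map_smul]

theorem H1_baseChange [Finite ι] (X : ι → Matrix m m K) (p : ι → ι → K) (a : ι → ℕ)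
    (hH : H1 (Lm X) (Rm X) p a fun _ => 1) :
    H1 (Lm fun i => (X i).map (algebraMap K F)) (Rm fun i => (X i).map (algebraMap K F))
      (fun i j => algebraMap K F (p i j)) a fun _ => 1 := by
  classical
  cases nonempty_fintype ι
  intro δ hδ
  let b := Module.Basis.ofVectorSpace K F
  have h1 : ∀ β, ∃ h : Matrix m m K, ∀ i, mpf (b.coord β) (δ i) = X i * h - h * X i := by
    intro β
    obtain ⟨h, hh⟩ := hH _ (Coc.map (mpf (b.coord β)) (mpf_smul _)
      (L' := Lm X) (R' := Rm X) (fun i x => mpf_left _ _ _) (fun i x => mpf_right _ _ _) hδ)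
    refine ⟨h, fun i => ?_⟩
    rw [hh i]
    simp
  choose h hh using h1
  let S : Finset _ := (univ : Finset (ι × m × m)).biUnion fun t => (b.repr (δ t.1 t.2.1 t.2.2)).support
  have hS : ∀ i k l, ∑ β ∈ S, algebraMap K F (b.coord β (δ i k l)) * b β = δ i k l := by
    intro i k l
    conv_rhs => rw [← b.linearCombination_repr (δ i k l)]
    rw [Finsupp.linearCombination_apply, Finsupp.sum_of_support_subset (s := S)]
    · refine sum_congr rfl fun β _ => ?_
      rw [Module.Basis.coord_apply, Algebra.smul_def]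
    · intro β hβ
      exact mem_biUnion.2 ⟨(i, k, l), mem_univ _, hβ⟩
    · intro β _
      rw [zero_smul]
  refine ⟨∑ β ∈ S, b β • (h β).map (algebraMap K F), fun i => ?_⟩
  rw [LinearMap.mulLeft_apply, LinearMap.mulRight_apply, one_smul, mul_sum, sum_mul,
    ← sum_sub_distrib]
  refine Matrix.ext fun k l => ?_
  rw [← hS i k l, Matrix.sum_apply]
  refine sum_congr rfl fun β _ => ?_
  have h2 : (X i).map (algebraMap K F) * b β • (h β).map (algebraMap K F) -
      b β • (h β).map (algebraMap K F) * (X i).map (algebraMap K F) =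
      b β • (X i * h β - h β * X i).map (algebraMap K F) := by
    rw [mul_smul_comm, smul_mul_assoc, ← smul_sub, Matrix.map_sub _ (map_sub _), Matrix.map_mul,
      Matrix.map_mul]
  rw [h2, ← hh β i, Matrix.smul_apply, Matrix.map_apply, mpf_apply, smul_eq_mul, mul_comm]

end Matrix

section Ext

variable {n : ℕ}

/-- extension of a finite family by a constant -/
def extN {α : Type*} (d : α) (f : Fin n → α) : ℕ → α := fun i => if h : i < n then f ⟨i, h⟩ else d

/-- extension of the commutation scalars -/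
def extP {K : Type*} [One K] (p : Fin n → Fin n → K) : ℕ → ℕ → K :=
  extN (fun _ => 1) fun i => extN 1 (p i)

theorem extN_lt {α : Type*} (d : α) (f : Fin n → α) {i : ℕ} (h : i < n) : extN d f i = f ⟨i, h⟩ :=
  dif_pos h

theorem extN_ge {α : Type*} (d : α) (f : Fin n → α) {i : ℕ} (h : ¬ i < n) : extN d f i = d :=
  dif_neg h

theorem extP_lt {K : Type*} [One K] (p : Fin n → Fin n → K) {i j : ℕ} (hi : i < n) (hj : j < n) :
    extP p i j = p ⟨i, hi⟩ ⟨j, hj⟩ := by
  rw [extP, extN_lt _ _ hi, extN_lt _ _ hj]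

theorem extP_left {K : Type*} [One K] (p : Fin n → Fin n → K) {i j : ℕ} (hi : ¬ i < n) :
    extP p i j = 1 := by
  rw [extP, extN_ge _ _ hi]

theorem extP_right {K : Type*} [One K] (p : Fin n → Fin n → K) {i j : ℕ} (hj : ¬ j < n) :
    extP p i j = 1 := by
  by_cases hi : i < n
  · rw [extP, extN_lt _ _ hi, extN_ge _ _ hj]
  · rw [extP_left _ hi]

theorem opRel_ext {K N : Type*} [Field K] [AddCommGroup N] [Module K N]
    (L R : Fin n → Module.End K N) (p : Fin n → Fin n → K) (a : Fin n → ℕ)
    (LL : ∀ i j, L i * L j = p i j • (L j * L i)) (RR : ∀ i j, R i * R j = p j i • (R j * R i))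
    (LR : ∀ i j, L i * R j = R j * L i) (Lp : ∀ i, L i ^ a i = 0) (Rp : ∀ i, R i ^ a i = 0)
    (pp : ∀ i j, p i j * p j i = 1) :
    OpRel (extN 0 L) (extN 0 R) (extP p) (extN 1 a) where
  LL i j := by
    by_cases hi : i < n
    · by_cases hj : j < n
      · rw [extN_lt _ _ hi, extN_lt _ _ hj, extP_lt _ hi hj, LL]
      · rw [extN_ge _ _ hj]; simp
    · rw [extN_ge _ _ hi]; simp
  RR i j := by
    by_cases hi : i < n
    · by_cases hj : j < n
      · rw [extN_lt _ _ hi, extN_lt _ _ hj, extP_lt _ hj hi, RR]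
      · rw [extN_ge _ _ hj]; simp
    · rw [extN_ge _ _ hi]; simp
  LR i j := by
    by_cases hi : i < n
    · by_cases hj : j < n
      · rw [extN_lt _ _ hi, extN_lt _ _ hj, LR]
      · rw [extN_ge 0 R hj]; simp
    · rw [extN_ge 0 L hi]; simp
  Lp i := by
    by_cases hi : i < n
    · rw [extN_lt _ _ hi, extN_lt _ _ hi, Lp]
    · rw [extN_ge _ _ hi, extN_ge _ _ hi, pow_one]
  Rp i := by
    by_cases hi : i < n
    · rw [extN_lt _ _ hi, extN_lt _ _ hi, Rp]
    · rw [extN_ge _ _ hi, extN_ge _ _ hi, pow_one]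
  pp i j := by
    by_cases hi : i < n
    · by_cases hj : j < n
      · rw [extP_lt _ hi hj, extP_lt _ hj hi, pp]
      · rw [extP_left _ hj, extP_right _ hj, one_mul]
    · rw [extP_left _ hi, extP_right _ hi, one_mul]

theorem H1_ext {K N : Type*} [Field K] [AddCommGroup N] [Module K N]
    (L R : Fin n → Module.End K N) (p : Fin n → Fin n → K) (a : Fin n → ℕ) (lam : ℕ → K)
    (hH : H1 L R p a fun i => lam i) :
    H1 (extN 0 L) (extN 0 R) (extP p) (extN 1 a) lam := by
  intro δ hδ
  obtain ⟨h, hh⟩ := hH (fun i => δ i) (by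
    refine ⟨fun i j => ?_, fun i => ?_⟩
    · have := hδ.1 i j
      rw [extN_lt _ _ i.2, extN_lt _ _ j.2, extN_lt _ _ i.2, extN_lt _ _ j.2, extP_lt _ i.2 j.2] at this
      exact this
    · have := hδ.2 i
      rw [extN_lt _ _ i.2, extN_lt _ _ i.2, extN_lt _ _ i.2] at this
      exact this)
  refine ⟨h, fun i => ?_⟩
  by_cases hi : i < n
  · rw [extN_lt _ _ hi, extN_lt _ _ hi]
    exact hh ⟨i, hi⟩
  · have := hδ.2 i
    rw [extN_ge _ _ hi, extN_ge _ _ hi, extN_ge _ _ hi] at this
    rw [extN_ge _ _ hi, extN_ge _ _ hi]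
    simpa using this

theorem exists_roots {F : Type*} [Field F] [IsAlgClosed F] (a : ℕ) (ha : 1 ≤ a) :
    ∃ c : ℕ → F, c 0 = 1 ∧ ∏ t ∈ range a, (X - C (c t)) = (X : F[X]) ^ a - 1 := by
  classical
  have hne : (X ^ a - 1 : F[X]) ≠ 0 := X_pow_sub_C_ne_zero ha 1
  have hmon : (X ^ a - 1 : F[X]).Monic := monic_X_pow_sub_C 1 (by omega)
  have hdeg : (X ^ a - 1 : F[X]).natDegree = a := natDegree_X_pow_sub_C
  have hsp := IsAlgClosed.splits (X ^ a - 1 : F[X])
  have hcard : (X ^ a - 1 : F[X]).roots.card = a := by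
    exact hsp.natDegree_eq_card_roots.symm.trans hdeg
  have hprod := hsp.eq_prod_roots_of_monic hmon
  have h1 : (1 : F) ∈ (X ^ a - 1 : F[X]).roots := by
    rw [mem_roots hne]
    simp
  obtain ⟨s, hs⟩ := Multiset.exists_cons_of_mem h1
  obtain ⟨l, hl, hl0⟩ : ∃ l : List F, (l : Multiset F) = (X ^ a - 1 : F[X]).roots ∧
      l.getD 0 0 = 1 :=
    ⟨1 :: s.toList, by rw [hs, ← Multiset.cons_coe, Multiset.coe_toList], rfl⟩
  have hlen : l.length = a := by
    rw [← Multiset.coe_card, hl, hcard]
  refine ⟨fun t => l.getD t 0, hl0, ?_⟩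
  rw [hprod, ← hl, Multiset.map_coe, Multiset.prod_coe, ← hlen]
  rw [← Fin.prod_univ_eq_prod_range (fun t => X - C (l.getD t 0)) l.length]
  rw [← List.prod_ofFn]
  congr 1
  refine List.ext_getElem (by simp) fun i h2 h3 => ?_
  have h4 : i < l.length := by simpa using h3
  simp [List.getD_eq_getElem?_getD, h4]

end Ext

section Main

variable {K : Type*} [Field K] {m : Type*} [Fintype m] [DecidableEq m] {n : ℕ}

theorem exists_trace_matrix (X : Fin n → Matrix m m K) (p : Fin n → Fin n → K) (a : Fin n → ℕ)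
    (ha : ∀ i, 1 ≤ a i) (hX : ∀ i j, X i * X j = p i j • (X j * X i)) (hXp : ∀ i, X i ^ a i = 0)
    (pii : ∀ i, p i i = 1) (pp : ∀ i j, p i j * p j i = 1)
    (hH : H1 (Lm X) (Rm X) p a fun _ => 1) :
    ∃ G : Matrix m m K,
      tr (extN 0 (Lm X)) (extN 0 (Rm X)) (extP p) (extN 1 a) n G = 1 := by
  classical
  let F := AlgebraicClosure K
  let X' : Fin n → Matrix m m F := fun i => (X i).map (algebraMap K F)
  let p' : Fin n → Fin n → F := fun i j => algebraMap K F (p i j)
  have hX' : ∀ i j, X' i * X' j = p' i j • (X' j * X' i) := by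
    intro i j
    have h1 : ∀ (k : K) (M : Matrix m m K), (algebraMap K F).mapMatrix (k • M) =
        algebraMap K F k • (algebraMap K F).mapMatrix M := by
      intro k M
      refine Matrix.ext fun r s => ?_
      simp
    have := congrArg (algebraMap K F).mapMatrix (hX i j)
    rw [h1, map_mul, map_mul] at this
    exact this
  have hXp' : ∀ i, X' i ^ a i = 0 := by
    intro i
    have := congrArg (algebraMap K F).mapMatrix (hXp i)
    rw [map_pow, map_zero] at this
    exact this
  have pii' : ∀ i, p' i i = 1 := fun i => by simp [p', pii]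
  have pp' : ∀ i j, p' i j * p' j i = 1 := fun i j => by rw [← map_mul, pp, map_one]
  have hH' : ∀ lam : ℕ → F, (∀ i, lam i ≠ 0) →
      H1 (extN 0 (Lm X')) (extN 0 (Rm X')) (extP p') (extN 1 a) lam := fun lam hlam =>
    H1_ext _ _ _ _ _ (H1_all X' hX' hXp' pii' (H1_baseChange X p a hH) _ fun i => hlam i)
  have hc := fun i => exists_roots (F := F) (extN 1 a i) (by
    by_cases hi : i < n
    · rw [extN_lt _ _ hi]; exact ha _
    · rw [extN_ge _ _ hi])
  choose c hc0 hc using hc
  have S : Setup (extN 0 (Lm X')) (extN 0 (Rm X')) (extP p') (extN 1 a) c n :=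
    { rel := opRel_ext _ _ _ _ (fun i j => by
          refine LinearMap.ext fun M => ?_
          simp only [Module.End.mul_apply, LinearMap.mulLeft_apply, LinearMap.smul_apply]
          rw [← mul_assoc, hX', smul_mul_assoc, mul_assoc]) (fun i j => by
          refine LinearMap.ext fun M => ?_
          simp only [Module.End.mul_apply, LinearMap.mulRight_apply, LinearMap.smul_apply]
          rw [mul_assoc, hX', mul_smul_comm, mul_assoc]) (fun i j => by
          refine LinearMap.ext fun M => ?_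
          simp only [Module.End.mul_apply, LinearMap.mulRight_apply, LinearMap.mulLeft_apply]
          rw [mul_assoc]) (fun i => by
          refine LinearMap.ext fun M => ?_
          rw [Lm_pow, hXp', zero_mul, LinearMap.zero_apply]) (fun i => by
          refine LinearMap.ext fun M => ?_
          rw [Rm_pow, hXp', mul_zero, LinearMap.zero_apply]) pp'
      pii := fun i => by
        by_cases hi : i < n
        · rw [extP_lt _ hi hi, pii']
        · rw [extP_left _ hi]
      apos := fun i => by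
        by_cases hi : i < n
        · rw [extN_lt _ _ hi]; exact ha _
        · rw [extN_ge _ _ hi]
      an := fun i hi => extN_ge _ _ (not_lt.2 hi)
      hc := hc
      hc0 := hc0 }
  obtain ⟨g, hg⟩ := exists_trace S (1 : Matrix m m F) (fun i => by
    by_cases hi : i < n
    · rw [extN_lt _ _ hi, extN_lt _ _ hi]; simp
    · rw [extN_ge _ _ hi, extN_ge _ _ hi]) hH'
  -- a retraction
  obtain ⟨φ, hφ⟩ := (Algebra.linearMap K F).exists_leftInverse_of_injective
    (LinearMap.ker_eq_bot.2 (algebraMap K F).injective)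
  have hφ' : ∀ k : K, φ (algebraMap K F k) = k := fun k => LinearMap.congr_fun hφ k
  refine ⟨mpf φ g, ?_⟩
  have h1 : extP p' = fun i j => algebraMap K F (extP p i j) := by
    funext i j
    by_cases hi : i < n
    · by_cases hj : j < n
      · rw [extP_lt _ hi hj, extP_lt _ hi hj]
      · rw [extP_right _ hj, extP_right _ hj, map_one]
    · rw [extP_left _ hi, extP_left _ hi, map_one]
  rw [h1] at hg
  rw [← tr_map (mpf φ) (mpf_smul φ) (extN 0 (Lm X')) (extN 0 (Rm X')) _ _ _ _ ?_ ?_, hg]
  · refine Matrix.ext fun k l => ?_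
    rw [mpf_apply, Matrix.one_apply, Matrix.one_apply]
    split_ifs
    · rw [← map_one (algebraMap K F), hφ']
    · rw [map_zero]
  · intro i x
    by_cases hi : i < n
    · rw [extN_lt _ _ hi, extN_lt _ _ hi]
      exact mpf_left _ _ _
    · rw [extN_ge _ _ hi, extN_ge _ _ hi]
      simp
  · intro i x
    by_cases hi : i < n
    · rw [extN_lt _ _ hi, extN_lt _ _ hi]
      exact mpf_right _ _ _
    · rw [extN_ge _ _ hi, extN_ge _ _ hi]
      simp

end Main

end Q1.QuantumCI
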