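import Pool.Agent.Q1.QuantumCI.Descent

/-!
# From the trace to projectivity
-/

namespace Q1.QuantumCI

open Finset

section Ops

variable {K : Type*} [Field K] {M P : Type*} [AddCommGroup M] [Module K M] [AddCommGroup P]
  [Module K P] {ι : Type*}

/-- left composition -/
def Lc (M : Type*) [AddCommGroup M] [Module K M] (Z : ι → Module.End K P) (i : ι) :
    Module.End K (M →ₗ[K] P) where
  toFun φ := Z i ∘ₗ φ
  map_add' _ _ := LinearMap.comp_add _ _ _
  map_smul' _ _ := LinearMap.comp_smul _ _ _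

/-- right composition -/
def Rc (P : Type*) [AddCommGroup P] [Module K P] (Z : ι → Module.End K M) (i : ι) :
    Module.End K (M →ₗ[K] P) where
  toFun φ := φ ∘ₗ Z i
  map_add' _ _ := LinearMap.add_comp _ _ _
  map_smul' _ _ := LinearMap.smul_comp _ _ _

theorem Lc_apply (Z : ι → Module.End K P) (i : ι) (φ : M →ₗ[K] P) (x : M) :
    Lc M Z i φ x = Z i (φ x) := rfl

theorem Rc_apply (Z : ι → Module.End K M) (i : ι) (φ : M →ₗ[K] P) (x : M) :
    Rc P Z i φ x = φ (Z i x) := rfl

/-- relations between operators -/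
structure Rels (Z : ι → Module.End K M) (p : ι → ι → K) (a : ι → ℕ) : Prop where
  comm : ∀ i j, Z i * Z j = p i j • (Z j * Z i)
  pow : ∀ i, Z i ^ a i = 0

theorem Rels.comm_apply {Z : ι → Module.End K M} {p : ι → ι → K} {a : ι → ℕ} (h : Rels Z p a)
    (i j : ι) (x : M) : Z i (Z j x) = p i j • Z j (Z i x) :=
  LinearMap.congr_fun (h.comm i j) x

theorem Lc_pow (Z : ι → Module.End K P) (i : ι) (r : ℕ) (φ : M →ₗ[K] P) (x : M) :
    (Lc M Z i ^ r) φ x = (Z i ^ r) (φ x) := by
  induction r generalizing φ with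
  | zero => simp
  | succ r ih =>
    rw [pow_succ, Module.End.mul_apply, ih, Lc_apply, pow_succ, Module.End.mul_apply]

theorem Rc_pow (Z : ι → Module.End K M) (i : ι) (r : ℕ) (φ : M →ₗ[K] P) (x : M) :
    (Rc P Z i ^ r) φ x = φ ((Z i ^ r) x) := by
  induction r generalizing φ with
  | zero => simp
  | succ r ih =>
    rw [pow_succ, Module.End.mul_apply, ih, Rc_apply, pow_succ', Module.End.mul_apply]

theorem opRel_comp {n : ℕ} {ZP : Fin n → Module.End K P} {ZM : Fin n → Module.End K M}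
    {p : Fin n → Fin n → K} {a : Fin n → ℕ} (hP : Rels ZP p a) (hM : Rels ZM p a)
    (pp : ∀ i j, p i j * p j i = 1) :
    OpRel (extN 0 (Lc M ZP)) (extN 0 (Rc P ZM)) (extP p) (extN 1 a) := by
  refine opRel_ext _ _ _ _ (fun i j => ?_) (fun i j => ?_) (fun i j => ?_) (fun i => ?_)
    (fun i => ?_) pp
  · refine LinearMap.ext fun φ => LinearMap.ext fun x => ?_
    exact hP.comm_apply i j (φ x)
  · refine LinearMap.ext fun φ => LinearMap.ext fun x => ?_
    change φ (ZM j (ZM i x)) = p j i • φ (ZM i (ZM j x))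
    rw [hM.comm_apply, map_smul]
  · rfl
  · refine LinearMap.ext fun φ => LinearMap.ext fun x => ?_
    rw [Lc_pow, hP.pow]
    rfl
  · refine LinearMap.ext fun φ => LinearMap.ext fun x => ?_
    rw [Rc_pow, hM.pow]
    simp

theorem H1_equiv {N N' : Type*} [AddCommGroup N] [Module K N] [AddCommGroup N'] [Module K N']
    {L R : ι → Module.End K N} {L' R' : ι → Module.End K N'} {p : ι → ι → K} {a : ι → ℕ}
    (T : N ≃ₗ[K] N') (hL : ∀ i x, T (L i x) = L' i (T x)) (hR : ∀ i x, T (R i x) = R' i (T x))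
    (hH : H1 L R p a fun _ => 1) : H1 L' R' p a fun _ => 1 := by
  intro δ hδ
  have hL' : ∀ i x, T.symm (L' i x) = L i (T.symm x) := by
    intro i x
    rw [T.symm_apply_eq, hL, T.apply_symm_apply]
  have hR' : ∀ i x, T.symm (R' i x) = R i (T.symm x) := by
    intro i x
    rw [T.symm_apply_eq, hR, T.apply_symm_apply]
  obtain ⟨h, hh⟩ := hH _ (Coc.map (σ := RingHom.id K) (T.symm : N' →+ N)
    (fun k x => T.symm.map_smul k x) hL' hR' hδ)
  refine ⟨T h, fun i => ?_⟩
  have := congrArg T (hh i)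
  rw [map_sub, map_smul, hL, hR] at this
  rw [← this]
  exact (T.apply_symm_apply _).symm

theorem exists_trace_end {n : ℕ} [FiniteDimensional K M] (Z : Fin n → Module.End K M)
    (p : Fin n → Fin n → K) (a : Fin n → ℕ)
    (ha : ∀ i, 1 ≤ a i) (hZ : Rels Z p a)
    (pii : ∀ i, p i i = 1) (pp : ∀ i j, p i j * p j i = 1)
    (hH : H1 (Lc M Z) (Rc M Z) p a fun _ => 1) :
    ∃ g : Module.End K M,
      tr (extN 0 (Lc M Z)) (extN 0 (Rc M Z)) (extP p) (extN 1 a) n g = 1 := by
  classical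
  let b := Module.finBasis K M
  let T : Module.End K M ≃ₐ[K] Matrix _ _ K := LinearMap.toMatrixAlgEquiv b
  have hTL : ∀ i (x : Module.End K M), T (Lc M Z i x) = Lm (fun i => T (Z i)) i (T x) := by
    intro i x
    rw [LinearMap.mulLeft_apply, ← map_mul]
    rfl
  have hTR : ∀ i (x : Module.End K M), T (Rc M Z i x) = Rm (fun i => T (Z i)) i (T x) := by
    intro i x
    rw [LinearMap.mulRight_apply, ← map_mul]
    rfl
  obtain ⟨G, hG⟩ := exists_trace_matrix (fun i => T (Z i)) p a ha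
    (fun i j => by rw [← map_mul, hZ.comm, map_smul, map_mul])
    (fun i => by rw [← map_pow, hZ.pow, map_zero]) pii pp
    (H1_equiv T.toLinearEquiv hTL hTR hH)
  refine ⟨T.symm G, T.injective ?_⟩
  rw [map_one, ← hG]
  have h1 := tr_map (σ := RingHom.id K) (T : Module.End K M →+ Matrix _ _ K)
    (fun k x => map_smul T k x) (extN 0 (Lc M Z)) (extN 0 (Rc M Z))
    (extN 0 (Lm fun i => T (Z i))) (extN 0 (Rm fun i => T (Z i))) (extP p) (extN 1 a)
    (fun i x => by
      by_cases hi : i < n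
      · rw [extN_lt _ _ hi, extN_lt _ _ hi]
        exact hTL _ _
      · rw [extN_ge _ _ hi, extN_ge _ _ hi]
        simp)
    (fun i x => by
      by_cases hi : i < n
      · rw [extN_lt _ _ hi, extN_lt _ _ hi]
        exact hTR _ _
      · rw [extN_ge _ _ hi, extN_ge _ _ hi]
        simp) n (T.symm G)
  have h2 : (T : Module.End K M →+ Matrix _ _ K) (T.symm G) = G := T.apply_symm_apply G
  rw [h2] at h1
  exact h1

theorem lift_of_trace {n : ℕ} {ZP : Fin n → Module.End K P} {Z : Fin n → Module.End K M}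
    {p : Fin n → Fin n → K} {a : Fin n → ℕ} (hP : Rels ZP p a) (hM : Rels Z p a)
    (pp : ∀ i j, p i j * p j i = 1) (g : Module.End K M)
    (hg : tr (extN 0 (Lc M Z)) (extN 0 (Rc M Z)) (extP p) (extN 1 a) n g = 1)
    (f : P →ₗ[K] M) (hf : ∀ i x, f (ZP i x) = Z i (f x)) (s : M →ₗ[K] P)
    (hs : f ∘ₗ s = LinearMap.id) :
    ∃ h : M →ₗ[K] P, (∀ i x, ZP i (h x) = h (Z i x)) ∧ f ∘ₗ h = LinearMap.id := by
  refine ⟨tr (extN 0 (Lc M ZP)) (extN 0 (Rc P Z)) (extP p) (extN 1 a) n (s ∘ₗ g),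
    fun i x => ?_, ?_⟩
  · have h1 := LinearMap.congr_fun ((opRel_comp hP hM pp).tr_zero i n i.2) (s ∘ₗ g)
    rw [Module.End.mul_apply, extN_lt _ _ i.2, extN_lt _ _ i.2, LinearMap.sub_apply,
      LinearMap.zero_apply, sub_eq_zero] at h1
    exact LinearMap.congr_fun h1 x
  · let T : (M →ₗ[K] P) →+ (M →ₗ[K] M) :=
      { toFun := fun φ => f ∘ₗ φ
        map_zero' := LinearMap.comp_zero _
        map_add' := fun φ ψ => LinearMap.comp_add _ _ _ }
    have h1 := tr_map (σ := RingHom.id K) T (fun k x => LinearMap.comp_smul _ _ _)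
      (extN 0 (Lc M ZP)) (extN 0 (Rc P Z)) (extN 0 (Lc M Z)) (extN 0 (Rc M Z)) (extP p) (extN 1 a)
      (fun i φ => by
        by_cases hi : i < n
        · rw [extN_lt _ _ hi, extN_lt _ _ hi]
          refine LinearMap.ext fun x => ?_
          exact hf _ _
        · rw [extN_ge _ _ hi, extN_ge _ _ hi]
          simp)
      (fun i φ => by
        by_cases hi : i < n
        · rw [extN_lt _ _ hi, extN_lt _ _ hi]
          rfl
        · rw [extN_ge _ _ hi, extN_ge _ _ hi]
          simp) n (s ∘ₗ g)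
    have h2 : T (s ∘ₗ g) = g := by
      change f ∘ₗ (s ∘ₗ g) = g
      rw [← LinearMap.comp_assoc, hs, LinearMap.id_comp]
    rw [h2] at h1
    exact h1.trans hg

end Ops

end Q1.QuantumCI
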