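import Pool.Agent.Q1.QuantumCI.Alg

/-!
# Non-projective modules over quantum complete intersections have self-extensions
-/

namespace Q1.QuantumCI

open CategoryTheory Finset

universe u

/-- A surjection onto a rigid module whose kernel is the module itself splits. -/
theorem split_of_ext {B : Type u} [Ring B] (M : Type u) [AddCommGroup M] [Module B M]
    (hE : ∀ e : Abelian.Ext (ModuleCat.of B M) (ModuleCat.of B M) 1, e = 0)
    (E : Type u) [AddCommGroup E] [Module B E] (i : M →ₗ[B] E) (π : E →ₗ[B] M)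
    (hi : Function.Injective i) (hπ : Function.Surjective π) (hex : Function.Exact i π) :
    ∃ s : M →ₗ[B] E, ∀ x, π (s x) = x := by
  let S : ShortComplex (ModuleCat.{u} B) := ShortComplex.mk (ModuleCat.ofHom i) (ModuleCat.ofHom π)
    (by
      refine ModuleCat.hom_ext (LinearMap.ext fun x => ?_)
      exact hex.apply_apply_eq_zero x)
  have hS : S.ShortExact :=
    { exact := (ShortComplex.ShortExact.moduleCat_exact_iff_function_exact S).2 hex
      mono_f := (ModuleCat.mono_iff_injective _).2 hi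
      epi_g := (ModuleCat.epi_iff_surjective _).2 hπ }
  obtain ⟨x₂, hx₂⟩ := Abelian.Ext.covariant_sequence_exact₃ (ModuleCat.of B M) hS
    (Abelian.Ext.mk₀ (𝟙 (ModuleCat.of B M))) (zero_add 1) (hE _)
  obtain ⟨f, rfl⟩ := (Abelian.Ext.mk₀_bijective _ _).2 x₂
  rw [Abelian.Ext.mk₀_comp_mk₀] at hx₂
  have h1 := (Abelian.Ext.mk₀_bijective _ _).1 hx₂
  refine ⟨f.hom, fun x => ?_⟩
  exact LinearMap.congr_fun (congrArg ModuleCat.Hom.hom h1) x

variable {K : Type u} [Field K] {n : ℕ} {a : Fin n → ℕ} {q : Fin n → Fin n → K}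

section ExtMod

variable {M : Type u} [AddCommGroup M] [Module K M]

/-- operators on the extension -/
def Yop (Z δ : Fin n → Module.End K M) (i : Fin n) : Module.End K (M × M) where
  toFun x := (Z i x.1 + δ i x.2, Z i x.2)
  map_add' x y := by
    ext
    · simp only [Prod.fst_add, Prod.snd_add, map_add]
      abel
    · simp
  map_smul' k x := by
    ext <;> simp

theorem Yop_pow (Z δ : Fin n → Module.End K M) (i : Fin n) (r : ℕ) (x : M × M) :
    (Yop Z δ i ^ r) x = ((Z i ^ r) x.1 +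
      ∑ s ∈ range r, (Z i ^ s) (δ i ((Z i ^ (r - 1 - s)) x.2)), (Z i ^ r) x.2) := by
  induction r with
  | zero => simp
  | succ r ih =>
    rw [pow_succ', Module.End.mul_apply, ih]
    change (Z i ((Z i ^ r) x.1 + ∑ s ∈ range r, (Z i ^ s) (δ i ((Z i ^ (r - 1 - s)) x.2))) +
      δ i ((Z i ^ r) x.2), Z i ((Z i ^ r) x.2)) = _
    ext
    · simp only
      rw [map_add, map_sum, sum_range_succ', add_assoc, pow_succ', Module.End.mul_apply]
      congr 1
      simp only [pow_zero, Module.End.one_apply]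
      congr 1
      refine sum_congr rfl fun s _ => ?_
      have h1 : r + 1 - 1 - (s + 1) = r - 1 - s := by omega
      rw [pow_succ', Module.End.mul_apply, h1]
    · simp only
      rw [pow_succ', Module.End.mul_apply]

theorem rels_Yop {p : Fin n → Fin n → K} {Z δ : Fin n → Module.End K M}
    (hZ : Rels Z p a) (hδ : Coc (Lc M Z) (Rc M Z) p a (fun _ => 1) δ) : Rels (Yop Z δ) p a where
  comm i j := by
    refine LinearMap.ext fun x => ?_
    have h1 := LinearMap.congr_fun (hδ.1 i j) x.2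
    simp only [one_smul] at h1
    change Z i (δ j x.2) + δ i (Z j x.2) = p i j • (Z j (δ i x.2) + δ j (Z i x.2)) at h1
    change (Z i (Z j x.1 + δ j x.2) + δ i (Z j x.2), Z i (Z j x.2)) =
      p i j • (Z j (Z i x.1 + δ i x.2) + δ j (Z i x.2), Z j (Z i x.2))
    ext
    · change Z i (Z j x.1 + δ j x.2) + δ i (Z j x.2) =
        p i j • (Z j (Z i x.1 + δ i x.2) + δ j (Z i x.2))
      rw [map_add, map_add, add_assoc, h1, hZ.comm_apply]
      simp only [smul_add, add_assoc]
    · change Z i (Z j x.2) = p i j • Z j (Z i x.2)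
      exact hZ.comm_apply _ _ _
  pow i := by
    refine LinearMap.ext fun x => ?_
    rw [Yop_pow, hZ.pow]
    have h1 := LinearMap.congr_fun (hδ.2 i) x.2
    simp only [one_smul, LinearMap.sum_apply, Module.End.mul_apply, LinearMap.zero_apply, Lc_pow,
      Rc_pow] at h1
    rw [h1]
    simp

/-- the extension of `M` by `M` given by a representation on `M × M` -/
def ExtMod (_ : (QCI a q)ᵐᵒᵖ →ₐ[K] Module.End K (M × M)) : Type u := M × M

instance (ρ : (QCI a q)ᵐᵒᵖ →ₐ[K] Module.End K (M × M)) : AddCommGroup (ExtMod ρ) :=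
  inferInstanceAs (AddCommGroup (M × M))

instance (ρ : (QCI a q)ᵐᵒᵖ →ₐ[K] Module.End K (M × M)) : Module K (ExtMod ρ) :=
  inferInstanceAs (Module K (M × M))

instance (ρ : (QCI a q)ᵐᵒᵖ →ₐ[K] Module.End K (M × M)) : Module (QCI a q)ᵐᵒᵖ (ExtMod ρ) :=
  Module.compHom (M × M) ρ.toRingHom

theorem ext_smul (ρ : (QCI a q)ᵐᵒᵖ →ₐ[K] Module.End K (M × M)) (b : (QCI a q)ᵐᵒᵖ)
    (x : ExtMod ρ) : b • x = (ρ b (x : M × M) : M × M) := rfl

instance (ρ : (QCI a q)ᵐᵒᵖ →ₐ[K] Module.End K (M × M)) :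
    IsScalarTower K (QCI a q)ᵐᵒᵖ (ExtMod ρ) where
  smul_assoc k b x := by
    rw [ext_smul, map_smul]
    rfl

end ExtMod

/-- Rigid modules over a quantum complete intersection are projective. -/
theorem projective_of_rigid (ha : ∀ i, 1 ≤ a i) (hq : ∀ i j, j < i → q i j ≠ 0)
    (M : Type u) [AddCommGroup M] [Module (QCI a q)ᵐᵒᵖ M] [Module.Finite (QCI a q)ᵐᵒᵖ M]
    (hE : ∀ e : Abelian.Ext (ModuleCat.of (QCI a q)ᵐᵒᵖ M) (ModuleCat.of (QCI a q)ᵐᵒᵖ M) 1, e = 0) :
    Module.Projective (QCI a q)ᵐᵒᵖ M := by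
  classical
  let _ : Module K M := Module.compHom M (algebraMap K (QCI a q)ᵐᵒᵖ)
  have : IsScalarTower K (QCI a q)ᵐᵒᵖ M := ⟨fun k b m => by
    rw [Algebra.smul_def, mul_smul]
    rfl⟩
  have := finite_QCI a q ha hq
  have : Module.Finite K (QCI a q)ᵐᵒᵖ := Module.Finite.equiv (MulOpposite.opLinearEquiv K)
  have : Module.Finite K M := Module.Finite.trans (QCI a q)ᵐᵒᵖ M
  let Z : Fin n → Module.End K M := fun i => Algebra.lsmul K K M (zg a q i)
  have hZ : Rels Z (psc q) a :=
    { comm := fun i j => by rw [← map_mul, zg_comm a q hq, map_smul, map_mul]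
      pow := fun i => by rw [← map_pow, zg_pow, map_zero] }
  have hH : H1 (Lc M Z) (Rc M Z) (psc q) a fun _ => 1 := by
    intro δ hδ
    obtain ⟨ρ, hρ⟩ := exists_rep (Yop Z δ) (rels_Yop hZ hδ)
    have hgen : ∀ i (x : ExtMod ρ), zg a q i • x = (Z i x.1 + δ i x.2, Z i x.2) := by
      intro i x
      rw [ext_smul, hρ]
      rfl
    let i₀ : M →ₗ[K] ExtMod ρ := LinearMap.inl K M M
    let π₀ : ExtMod ρ →ₗ[K] M := LinearMap.snd K M M
    have hi₀ : ∀ (b : (QCI a q)ᵐᵒᵖ) x, i₀ (b • x) = b • i₀ x := linear_of_gen i₀ (by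
      intro i x
      rw [hgen]
      change (Z i x, (0 : M)) = (Z i x + δ i 0, Z i 0)
      rw [map_zero, map_zero, add_zero])
    have hπ₀ : ∀ (b : (QCI a q)ᵐᵒᵖ) x, π₀ (b • x) = b • π₀ x := linear_of_gen π₀ (by
      intro i x
      rw [hgen]
      rfl)
    obtain ⟨s, hs⟩ := split_of_ext M hE (ExtMod ρ)
      { toFun := i₀, map_add' := map_add i₀, map_smul' := hi₀ }
      { toFun := π₀, map_add' := map_add π₀, map_smul' := hπ₀ }
      (fun x y h => congrArg Prod.fst h) (fun x => ⟨((0 : M), x), rfl⟩) (by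
        intro x
        constructor
        · intro h
          exact ⟨x.1, Prod.ext rfl h.symm⟩
        · rintro ⟨y, rfl⟩
          rfl)
    have hsK : ∀ (k : K) x, s (k • x) = k • s x := by
      intro k x
      have h1 : k • x = algebraMap K (QCI a q)ᵐᵒᵖ k • x := rfl
      rw [h1, s.map_smul, algebraMap_smul]
    let h : Module.End K M :=
      { toFun := fun x => -(s x).1
        map_add' := fun x y => by
          rw [map_add, ← neg_add]
          rfl
        map_smul' := fun k x => by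
          rw [hsK, RingHom.id_apply, smul_neg]
          rfl }
    refine ⟨h, fun i => ?_⟩
    rw [one_smul]
    refine LinearMap.ext fun x => ?_
    have h1 := s.map_smul (zg a q i) x
    rw [hgen] at h1
    have h2 := congrArg Prod.fst h1
    have h3 : (s x).2 = x := hs x
    rw [h3] at h2
    change δ i x = Z i (-(s x).1) - -(s (Z i x)).1
    have h4 : (s (Z i x)).1 = Z i (s x).1 + δ i x := h2
    rw [h4, map_neg]
    abel
  obtain ⟨g, hg⟩ := exists_trace_end Z (psc q) a ha hZ (psc_self q) (psc_mul q hq) hH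
  refine Module.Projective.of_lifting_property'' fun f hf => ?_
  let ZP : Fin n → Module.End K (M →₀ (QCI a q)ᵐᵒᵖ) := fun i => Algebra.lsmul K K _ (zg a q i)
  have hZP : Rels (M := M →₀ (QCI a q)ᵐᵒᵖ) ZP (psc q) a :=
    { comm := fun i j => by
        change Algebra.lsmul K K _ (zg a q i) * Algebra.lsmul K K _ (zg a q j) =
          psc q i j • (Algebra.lsmul K K _ (zg a q j) * Algebra.lsmul K K _ (zg a q i))
        rw [← map_mul, zg_comm a q hq, map_smul, map_mul]
      pow := fun i => by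
        change Algebra.lsmul K K _ (zg a q i) ^ a i = 0
        rw [← map_pow, zg_pow, map_zero] }
  let fK : (M →₀ (QCI a q)ᵐᵒᵖ) →ₗ[K] M := f.restrictScalars K
  obtain ⟨s, hs⟩ := fK.exists_rightInverse_of_surjective (LinearMap.range_eq_top.2 hf)
  obtain ⟨h, hh, hfh⟩ := lift_of_trace hZP hZ (psc_mul q hq) g hg fK
    (fun i x => f.map_smul _ _) s hs
  have hlin : ∀ (b : (QCI a q)ᵐᵒᵖ) x, h (b • x) = b • h x :=
    linear_of_gen (K := K) (a := a) (q := q) (M := M) (P := M →₀ (QCI a q)ᵐᵒᵖ) h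
      fun i x => (hh i x).symm
  exact ⟨{ toFun := h, map_add' := map_add h, map_smul' := hlin },
    LinearMap.ext fun x => LinearMap.congr_fun hfh x⟩

end Q1.QuantumCI
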