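import Pool.Agent.Q1.QuantumCI.Tower

/-!
# Rigid tuples of matrices are invariant under the torus
-/

namespace Q1.QuantumCI

open Finset Polynomial

variable {F : Type*} [Field F] {m : Type*} [Fintype m] [DecidableEq m] {ι : Type*}

section Step

variable (X : ι → Matrix m m F) (p : ι → ι → F) (a : ι → ℕ)

/-- left multiplication operators -/
noncomputable abbrev Lm (i : ι) : Module.End F (Matrix m m F) := LinearMap.mulLeft F (X i)

/-- right multiplication operators -/
noncomputable abbrev Rm (i : ι) : Module.End F (Matrix m m F) := LinearMap.mulRight F (X i)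

/-- matrices commuting with the `X j`, `j ≠ i`, and normalising the powers of `X i` -/
def GoodAt (i : ι) (Ψ : Matrix m m F) : Prop :=
  (∀ k : ℕ, ∃ Y, X i ^ k * Ψ = Y * X i ^ k) ∧ ∀ j, j ≠ i → X j * Ψ = Ψ * X j

variable {X p a}

theorem Lm_pow (i : ι) (r : ℕ) (M : Matrix m m F) : (Lm X i ^ r) M = X i ^ r * M := by
  rw [Lm, LinearMap.pow_mulLeft, LinearMap.mulLeft_apply]

theorem Rm_pow (i : ι) (r : ℕ) (M : Matrix m m F) : (Rm X i ^ r) M = M * X i ^ r := by
  rw [Rm, LinearMap.pow_mulRight, LinearMap.mulRight_apply]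

theorem good_step (hX : ∀ i j, X i * X j = p i j • (X j * X i)) (hXp : ∀ i, X i ^ a i = 0)
    (pii : ∀ i, p i i = 1)
    (hH : H1 (Lm X) (Rm X) p a fun _ => 1) (i : ι) (Ψ : Matrix m m F) (hΨ : GoodAt X i Ψ) :
    ∃ Ψ', GoodAt X i Ψ' ∧ X i * Ψ' - Ψ' * X i = Ψ * X i := by
  classical
  obtain ⟨h, hh⟩ := hH (fun j => if j = i then Ψ * X i else 0) (by
    refine ⟨fun j k => ?_, fun j => ?_⟩
    · simp only [LinearMap.mulLeft_apply, LinearMap.mulRight_apply, one_smul]
      rcases eq_or_ne j k with rfl | hjk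
      · rw [pii, one_smul]
      · by_cases hj : j = i
        · have hk : k ≠ i := fun e => hjk (hj.trans e.symm)
          subst hj
          simp only [hk, if_true, if_false, mul_zero, zero_mul, zero_add, add_zero]
          rw [mul_assoc, hX j k, mul_smul_comm, ← mul_assoc, ← mul_assoc, hΨ.2 k hk]
        · by_cases hk : k = i
          · subst hk
            simp only [hj, if_true, if_false, mul_zero, zero_mul, zero_add, add_zero]
            rw [← mul_assoc, hΨ.2 j hj, mul_assoc, hX j k, mul_smul_comm, mul_assoc]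
          · simp [hj, hk]
    · by_cases hj : j = i
      · subst hj
        simp only [if_true, one_smul]
        refine sum_eq_zero fun r hr => ?_
        rw [mem_range] at hr
        rw [Module.End.mul_apply, Rm_pow, Lm_pow, mul_assoc, ← pow_succ', ← mul_assoc]
        obtain ⟨Y, hY⟩ := hΨ.1 r
        rw [hY, mul_assoc, ← pow_add]
        have : r + (a j - 1 - r + 1) = a j := by omega
        rw [this, hXp, mul_zero]
      · simp [hj])
  simp only [LinearMap.mulLeft_apply, LinearMap.mulRight_apply, one_smul] at hh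
  have h1 : X i * h - h * X i = Ψ * X i := by
    have := hh i
    rw [if_pos rfl] at this
    exact this.symm
  refine ⟨h, ⟨fun k => ?_, fun j hj => ?_⟩, h1⟩
  · induction k with
    | zero => exact ⟨h, by simp⟩
    | succ k ih =>
      obtain ⟨Y, hY⟩ := ih
      obtain ⟨Y', hY'⟩ := hΨ.1 k
      refine ⟨Y + Y', ?_⟩
      have h2 : X i * h = (h + Ψ) * X i := by
        rw [add_mul, ← h1]
        abel
      rw [pow_succ, mul_assoc, h2, ← mul_assoc, mul_add, hY, hY', ← add_mul, mul_assoc]
  · have := hh j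
    rw [if_neg hj] at this
    exact (sub_eq_zero.1 this.symm)

theorem exists_seq (hX : ∀ i j, X i * X j = p i j • (X j * X i)) (hXp : ∀ i, X i ^ a i = 0)
    (pii : ∀ i, p i i = 1)
    (hH : H1 (Lm X) (Rm X) p a fun _ => 1) (i : ι) :
    ∃ ψ : ℕ → Matrix m m F, ψ 0 = 1 ∧ (∀ r, ∀ j, j ≠ i → X j * ψ r = ψ r * X j) ∧
      ∀ r, X i * ψ (r + 1) = ψ (r + 1) * X i + ψ r * X i := by
  have hstep := good_step hX hXp pii hH i
  choose! g hg1 hg2 using hstep
  let ψ : ℕ → Matrix m m F := fun r => Nat.rec 1 (fun _ M => g M) r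
  have hgood : ∀ r, GoodAt X i (ψ r) := by
    intro r
    induction r with
    | zero => exact ⟨fun k => ⟨1, by simp [ψ]⟩, fun j _ => by simp [ψ]⟩
    | succ r ih => exact hg1 _ ih
  refine ⟨ψ, rfl, fun r j hj => (hgood r).2 j hj, fun r => ?_⟩
  have := hg2 _ (hgood r)
  rw [sub_eq_iff_eq_add] at this
  change X i * g (ψ r) = g (ψ r) * X i + ψ r * X i
  rw [this, add_comm]

end Step

section Flat

theorem torsionFree_powerSeries : Module.IsTorsionFree F[X] (PowerSeries F) := by
  rw [Module.isTorsionFree_iff_algebraMap_injective]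
  intro p q h
  have h1 : ((p : PowerSeries F)) = (q : PowerSeries F) := by
    simpa [PowerSeries.algebraMap_apply'] using h
  exact Polynomial.coe_injective F h1

/-- A matrix of power series satisfying linear equations with polynomial coefficients can be
replaced by a matrix of polynomials. -/
theorem exists_poly (X : ι → Matrix m m F) [Fintype ι] (τ : ι → F[X])
    (Ψ : Matrix m m (PowerSeries F)) (hdet : Ψ.det ≠ 0)
    (hΨ : ∀ l, (X l).map (algebraMap F (PowerSeries F)) * Ψ =
      algebraMap F[X] (PowerSeries F) (τ l) • (Ψ * (X l).map (algebraMap F (PowerSeries F)))) :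
    ∃ Φ : Matrix m m F[X], Φ.det ≠ 0 ∧ ∀ l, (X l).map C * Φ = τ l • (Φ * (X l).map C) := by
  classical
  -- the linear map sending the basis vector `(i, j)` to the entry of `Ψ`
  let x : (m × m →₀ F[X]) →ₗ[F[X]] PowerSeries F :=
    Finsupp.linearCombination F[X] fun ij => Ψ ij.1 ij.2
  let w : ι × m × m → (m × m →₀ F[X]) := fun t =>
    ∑ s, (Finsupp.single (s, t.2.2) (C (X t.1 t.2.1 s)) -
      Finsupp.single (t.2.1, s) (τ t.1 * C (X t.1 s t.2.2)))
  let f : (ι × m × m →₀ F[X]) →ₗ[F[X]] (m × m →₀ F[X]) := Finsupp.linearCombination F[X] w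
  have hxw : ∀ t, x (w t) = 0 := by
    rintro ⟨l, i, j⟩
    have h1 := congrFun (congrFun (hΨ l) i) j
    simp only [Matrix.mul_apply, Matrix.smul_apply, Matrix.map_apply, smul_eq_mul] at h1
    simp only [w, x, map_sum, map_sub, Finsupp.linearCombination_single]
    rw [sum_sub_distrib, sub_eq_zero]
    have h2 : ∀ c : F, (C c : F[X]) • (1 : PowerSeries F) = algebraMap F (PowerSeries F) c := by
      intro c
      rw [Algebra.smul_def, mul_one]
      simp [RingHom.algebraMap_toAlgebra]
    have h3 : ∀ (c : F) (z : PowerSeries F), (C c : F[X]) • z = algebraMap F (PowerSeries F) c * z := by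
      intro c z
      rw [← h2, smul_mul_assoc, one_mul]
    simp_rw [h3, mul_smul, h3]
    rw [h1, mul_sum]
    refine sum_congr rfl fun s _ => ?_
    rw [Algebra.smul_def, mul_comm (algebraMap F (PowerSeries F) _)]
  have hxf : x ∘ₗ f = 0 := by
    ext t
    simp only [LinearMap.comp_apply, Finsupp.lsingle_apply, f, Finsupp.linearCombination_single,
      one_smul, LinearMap.zero_apply, hxw]
  have := torsionFree_powerSeries (F := F)
  obtain ⟨k, α, y, hxy, haf⟩ := Module.Flat.exists_factorization_of_comp_eq_zero_of_free hxf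
  let Φ : Fin k → Matrix m m F[X] := fun c => Matrix.of fun i j => α (Finsupp.single (i, j) 1) c
  let z : Fin k → PowerSeries F := fun c => y (Finsupp.single c 1)
  have hΨz : ∀ i j, Ψ i j = ∑ c, algebraMap F[X] (PowerSeries F) (Φ c i j) * z c := by
    intro i j
    have h1 : Ψ i j = x (Finsupp.single (i, j) 1) := by
      simp [x, Finsupp.linearCombination_single]
    rw [h1, hxy, LinearMap.comp_apply]
    conv_lhs => rw [← Finsupp.univ_sum_single (α (Finsupp.single (i, j) 1))]
    rw [map_sum]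
    refine sum_congr rfl fun c _ => ?_
    have : (Finsupp.single c (α (Finsupp.single (i, j) 1) c) : Fin k →₀ F[X]) =
        (α (Finsupp.single (i, j) 1) c) • Finsupp.single c 1 := by simp
    rw [this, map_smul, Algebra.smul_def]
    rfl
  have hαsm : ∀ (i j : m) (g : F[X]) (c : Fin k), α (Finsupp.single (i, j) g) c = g * Φ c i j := by
    intro i j g c
    have : (Finsupp.single (i, j) g : m × m →₀ F[X]) = g • Finsupp.single (i, j) 1 := by simp
    rw [this, map_smul, Finsupp.smul_apply, smul_eq_mul]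
    rfl
  have hΦ : ∀ c l, (X l).map C * Φ c = τ l • (Φ c * (X l).map C) := by
    intro c l
    refine Matrix.ext fun i j => ?_
    have h1 := LinearMap.congr_fun haf (Finsupp.single (l, i, j) 1)
    rw [LinearMap.comp_apply, Finsupp.linearCombination_single, one_smul] at h1
    have h2 := DFunLike.congr_fun h1 c
    simp only [w, map_sum, map_sub, Finsupp.finsetSum_apply, Finsupp.sub_apply, hαsm,
      LinearMap.zero_apply, Finsupp.zero_apply] at h2
    rw [sum_sub_distrib, sub_eq_zero] at h2
    rw [Matrix.smul_apply, Matrix.mul_apply, Matrix.mul_apply, smul_eq_mul, mul_sum]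
    simp only [Matrix.map_apply]
    rw [h2]
    exact sum_congr rfl fun s _ => by ring
  -- the generic combination
  let Q : MvPolynomial (Fin k) F[X] :=
    (Matrix.of fun i j => ∑ c, MvPolynomial.C (Φ c i j) * MvPolynomial.X c).det
  have hQ : MvPolynomial.aeval z Q = Ψ.det := by
    rw [AlgHom.map_det]
    congr 1
    ext i j : 2
    rw [hΨz i j]
    simp [map_sum]
  have hQ0 : Q ≠ 0 := by
    rintro h0
    rw [h0, map_zero] at hQ
    exact hdet hQ.symm
  obtain ⟨wv, hwv⟩ : ∃ wv : Fin k → F[X], MvPolynomial.eval wv Q ≠ 0 := by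
    by_contra hcon
    push Not at hcon
    exact hQ0 (MvPolynomial.funext fun v => by rw [hcon v, map_zero])
  refine ⟨Matrix.of fun i j => ∑ c, Φ c i j * wv c, ?_, fun l => ?_⟩
  · convert hwv using 1
    rw [RingHom.map_det]
    congr 1
    ext i j : 2
    simp [map_sum]
  · have hsum : (Matrix.of fun i j => ∑ c, Φ c i j * wv c) = ∑ c, wv c • Φ c := by
      ext i j : 2
      simp [Matrix.sum_apply, mul_comm]
    rw [hsum, mul_sum, sum_mul, smul_sum]
    refine sum_congr rfl fun c _ => ?_
    rw [mul_smul_comm, hΦ, smul_mul_assoc, smul_comm]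

end Flat

section Torus

/-- one parameter family of symmetries -/
theorem exists_family (X : ι → Matrix m m F) {p : ι → ι → F} {a : ι → ℕ} [Fintype ι]
    (hX : ∀ i j, X i * X j = p i j • (X j * X i)) (hXp : ∀ i, X i ^ a i = 0)
    (pii : ∀ i, p i i = 1)
    (hH : H1 (Lm X) (Rm X) p a fun _ => 1) (i : ι) :
    ∃ d : F[X], d ≠ 0 ∧ ∀ s : F, d.eval s ≠ 0 → ∃ Φ : Matrix m m F, Φ.det ≠ 0 ∧
      X i * Φ = (1 + s) • (Φ * X i) ∧ ∀ j, j ≠ i → X j * Φ = Φ * X j := by
  classical
  obtain ⟨ψ, h0, h1, h2⟩ := exists_seq hX hXp pii hH i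
  let Ψ : Matrix m m (PowerSeries F) := Matrix.of fun k l => PowerSeries.mk fun r => ψ r k l
  have hconst : (PowerSeries.constantCoeff (R := F)).mapMatrix Ψ = 1 := by
    refine Matrix.ext fun k l => ?_
    rw [RingHom.mapMatrix_apply, Matrix.map_apply]
    change PowerSeries.constantCoeff (PowerSeries.mk fun r => ψ r k l) = _
    rw [← PowerSeries.coeff_zero_eq_constantCoeff_apply, PowerSeries.coeff_mk, h0]
  have hdet : Ψ.det ≠ 0 := by
    intro hd
    have := congrArg (PowerSeries.constantCoeff (R := F)) hd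
    rw [RingHom.map_det, hconst, Matrix.det_one, map_zero] at this
    exact one_ne_zero this
  obtain ⟨Φ, hΦ, hΦ'⟩ := exists_poly X (fun l => if l = i then 1 + Polynomial.X else 1) Ψ hdet (by
    intro l
    refine Matrix.ext fun k k' => ?_
    have hal : ∀ c : F, algebraMap F (PowerSeries F) c = PowerSeries.C c := fun c => rfl
    simp only [Matrix.mul_apply, Matrix.smul_apply, Matrix.map_apply, smul_eq_mul, hal]
    by_cases hl : l = i
    · subst hl
      rw [if_pos rfl]
      have hmap : algebraMap F[X] (PowerSeries F) (1 + Polynomial.X) = 1 + PowerSeries.X := by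
        rw [PowerSeries.algebraMap_apply']
        simp
      rw [hmap]
      ext r
      rw [add_mul, one_mul, map_add, map_sum, map_sum]
      rcases r with _ | r
      · rw [PowerSeries.coeff_zero_X_mul, add_zero]
        have := congrFun (congrFun (show X l * ψ 0 = ψ 0 * X l by rw [h0]; simp) k) k'
        rw [Matrix.mul_apply, Matrix.mul_apply] at this
        simpa [Ψ, PowerSeries.coeff_C_mul, PowerSeries.coeff_mul_C] using this
      · rw [PowerSeries.coeff_succ_X_mul, map_sum]
        have := congrFun (congrFun (h2 r) k) k'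
        rw [Matrix.add_apply, Matrix.mul_apply, Matrix.mul_apply, Matrix.mul_apply] at this
        simpa [Ψ, PowerSeries.coeff_C_mul, PowerSeries.coeff_mul_C] using this
    · rw [if_neg hl, map_one, one_mul]
      ext r
      rw [map_sum, map_sum]
      have := congrFun (congrFun (h1 r l hl) k) k'
      rw [Matrix.mul_apply, Matrix.mul_apply] at this
      simpa [Ψ, PowerSeries.coeff_C_mul, PowerSeries.coeff_mul_C] using this)
  refine ⟨Φ.det, hΦ, fun s hs => ⟨(evalRingHom s).mapMatrix Φ, ?_, ?_, fun j hj => ?_⟩⟩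
  · rw [← RingHom.map_det]
    exact hs
  · have := congrArg (evalRingHom s).mapMatrix (hΦ' i)
    have hC : (evalRingHom s).mapMatrix ((X i).map C) = X i := by
      refine Matrix.ext fun k l => ?_
      simp
    rw [if_pos rfl, map_mul, hC] at this
    rw [this]
    refine Matrix.ext fun k l => ?_
    rw [RingHom.mapMatrix_apply, Matrix.map_apply, Matrix.smul_apply, smul_eq_mul, map_mul,
      Matrix.smul_apply, smul_eq_mul]
    congr 1
    · simp
    · rw [Matrix.mul_apply, Matrix.mul_apply, map_sum]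
      refine sum_congr rfl fun r _ => ?_
      simp
  · have := congrArg (evalRingHom s).mapMatrix (hΦ' j)
    have hC : (evalRingHom s).mapMatrix ((X j).map C) = X j := by
      refine Matrix.ext fun k l => ?_
      simp
    rw [if_neg hj, one_smul, map_mul, map_mul, hC] at this
    exact this

/-- all twists by a torus element are isomorphic -/
theorem exists_torus_one [Infinite F] (X : ι → Matrix m m F) {p : ι → ι → F} {a : ι → ℕ} [Fintype ι]
    (hX : ∀ i j, X i * X j = p i j • (X j * X i)) (hXp : ∀ i, X i ^ a i = 0)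
    (pii : ∀ i, p i i = 1)
    (hH : H1 (Lm X) (Rm X) p a fun _ => 1) (i : ι) (t : F) (ht : t ≠ 0) :
    ∃ Φ : Matrix m m F, Φ.det ≠ 0 ∧
      X i * Φ = t • (Φ * X i) ∧ ∀ j, j ≠ i → X j * Φ = Φ * X j := by
  classical
  obtain ⟨d, hd, hs⟩ := exists_family X hX hXp pii hH i
  let B : Finset F := d.roots.toFinset.image (fun s => 1 + s)
  obtain ⟨u, hu⟩ := Infinite.exists_notMem_finset (insert 0 (B ∪ B.image (fun b => t * b⁻¹)))
  rw [mem_insert, mem_union, not_or, not_or] at hu
  obtain ⟨hu0, hu1, hu2⟩ := hu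
  have hB : ∀ v : F, v ∉ B → ∃ Φ : Matrix m m F, Φ.det ≠ 0 ∧
      X i * Φ = v • (Φ * X i) ∧ ∀ j, j ≠ i → X j * Φ = Φ * X j := by
    intro v hv
    have h1 : d.eval (v - 1) ≠ 0 := by
      intro h2
      refine hv (mem_image.2 ⟨v - 1, ?_, by ring⟩)
      rw [Multiset.mem_toFinset, mem_roots hd]
      exact h2
    obtain ⟨Φ, h2, h3, h4⟩ := hs _ h1
    exact ⟨Φ, h2, by rw [h3]; congr 1; ring, h4⟩
  obtain ⟨Φ, h1, h2, h3⟩ := hB u hu1
  obtain ⟨Φ', h1', h2', h3'⟩ := hB (t * u⁻¹) (fun hmem => hu2 (mem_image.2 ⟨_, hmem, by field_simp⟩))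
  refine ⟨Φ * Φ', by rw [Matrix.det_mul]; exact mul_ne_zero h1 h1', ?_, fun j hj => ?_⟩
  · rw [← mul_assoc, h2, smul_mul_assoc, mul_assoc, h2', mul_smul_comm, smul_smul, mul_assoc]
    congr 1
    field_simp
  · rw [← mul_assoc, h3 j hj, mul_assoc, h3' j hj, mul_assoc]

theorem exists_torus [Infinite F] (X : ι → Matrix m m F) {p : ι → ι → F} {a : ι → ℕ} [Fintype ι]
    (hX : ∀ i j, X i * X j = p i j • (X j * X i)) (hXp : ∀ i, X i ^ a i = 0)
    (pii : ∀ i, p i i = 1)
    (hH : H1 (Lm X) (Rm X) p a fun _ => 1) (lam : ι → F) (hlam : ∀ i, lam i ≠ 0) :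
    ∃ Φ : Matrix m m F, Φ.det ≠ 0 ∧ ∀ i, X i * Φ = lam i • (Φ * X i) := by
  classical
  have key : ∀ s : Finset ι, ∃ Φ : Matrix m m F, Φ.det ≠ 0 ∧
      ∀ i, X i * Φ = (if i ∈ s then lam i else 1) • (Φ * X i) := by
    intro s
    induction s using Finset.induction_on with
    | empty => exact ⟨1, by simp, fun i => by simp⟩
    | insert k s hk ih =>
      obtain ⟨Φ, h1, h2⟩ := ih
      obtain ⟨Φ', h1', h2', h3'⟩ := exists_torus_one X hX hXp pii hH k (lam k) (hlam k)
      refine ⟨Φ * Φ', by rw [Matrix.det_mul]; exact mul_ne_zero h1 h1', fun i => ?_⟩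
      rcases eq_or_ne i k with rfl | hik
      · rw [← mul_assoc, h2, if_neg hk, one_smul, mul_assoc, h2', mul_smul_comm, if_pos (mem_insert_self _ _),
          mul_assoc]
      · rw [← mul_assoc, h2, smul_mul_assoc, mul_assoc, h3' i hik, mul_assoc]
        simp [hik]
  obtain ⟨Φ, h1, h2⟩ := key univ
  exact ⟨Φ, h1, fun i => by rw [h2, if_pos (mem_univ i)]⟩

theorem H1_twist {N : Type*} [AddCommGroup N] [Module F N] {L R : ι → Module.End F N}
    {p : ι → ι → F} {a : ι → ℕ} {lam : ι → F} (T : N ≃ₗ[F] N) (hL : ∀ i x, L i (T x) = T (L i x))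
    (hR : ∀ i x, R i (T x) = T (lam i • R i x)) (hH : H1 L R p a fun _ => 1) :
    H1 L R p a lam := by
  intro δ hδ
  obtain ⟨h, hh⟩ := hH (fun i => T (δ i)) (by
    refine ⟨fun i j => ?_, fun i => ?_⟩
    · have := congrArg T (hδ.1 i j)
      simp only [map_add, map_smul] at this
      simp only [one_smul, hL, hR, map_smul]
      exact this
    · have hLp : ∀ (r : ℕ) x, (L i ^ r) (T x) = T ((L i ^ r) x) := by
        intro r
        induction r with
        | zero => intro x; simp
        | succ r ih => intro x; rw [pow_succ', Module.End.mul_apply, ih, hL, Module.End.mul_apply]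
      have hRp : ∀ (r : ℕ) x, (((1 : F) • R i) ^ r) (T x) = T (((lam i • R i) ^ r) x) := by
        intro r
        induction r with
        | zero => intro x; simp
        | succ r ih =>
          intro x
          rw [pow_succ', Module.End.mul_apply, ih, one_smul, hR, pow_succ', Module.End.mul_apply,
            LinearMap.smul_apply]
      have := congrArg T (hδ.2 i)
      rw [map_sum, map_zero] at this
      rw [← this]
      refine sum_congr rfl fun r _ => ?_
      rw [Module.End.mul_apply, hRp, hLp, Module.End.mul_apply])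
  refine ⟨T.symm h, fun i => T.injective ?_⟩
  have h1 := hL i (T.symm h)
  have h2 := hR i (T.symm h)
  rw [T.apply_symm_apply] at h1 h2
  rw [map_sub, ← h1, ← h2, hh i, one_smul]

theorem H1_all [Infinite F] (X : ι → Matrix m m F) {p : ι → ι → F} {a : ι → ℕ} [Fintype ι]
    (hX : ∀ i j, X i * X j = p i j • (X j * X i)) (hXp : ∀ i, X i ^ a i = 0)
    (pii : ∀ i, p i i = 1)
    (hH : H1 (Lm X) (Rm X) p a fun _ => 1) (lam : ι → F) (hlam : ∀ i, lam i ≠ 0) :
    H1 (Lm X) (Rm X) p a lam := by
  obtain ⟨Φ, h1, h2⟩ := exists_torus X hX hXp pii hH lam hlam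
  have hu : IsUnit Φ.det := isUnit_iff_ne_zero.2 h1
  have hi1 : Φ * Φ⁻¹ = 1 := Matrix.mul_nonsing_inv _ hu
  have hi2 : Φ⁻¹ * Φ = 1 := Matrix.nonsing_inv_mul _ hu
  refine H1_twist (LinearEquiv.ofLinearMap (LinearMap.mulRight F Φ⁻¹) (LinearMap.mulRight F Φ) ?_ ?_)
    (fun i x => ?_) (fun i x => ?_) hH
  · refine LinearMap.ext fun x => ?_
    rw [LinearMap.comp_apply, LinearMap.mulRight_apply, LinearMap.mulRight_apply, mul_assoc, hi1,
      mul_one, LinearMap.id_apply]
  · refine LinearMap.ext fun x => ?_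
    rw [LinearMap.comp_apply, LinearMap.mulRight_apply, LinearMap.mulRight_apply, mul_assoc, hi2,
      mul_one, LinearMap.id_apply]
  · simp [mul_assoc]
  · have h3 : Φ⁻¹ * X i = lam i • (X i * Φ⁻¹) := by
      calc Φ⁻¹ * X i = Φ⁻¹ * (X i * Φ) * Φ⁻¹ := by rw [mul_assoc, mul_assoc, hi1, mul_one]
        _ = lam i • (X i * Φ⁻¹) := by
          rw [h2, mul_smul_comm, ← mul_assoc, hi2, one_mul, smul_mul_assoc]
    simp only [LinearEquiv.coe_ofLinearMap, LinearMap.mulRight_apply, map_smul]
    rw [mul_assoc, h3, mul_smul_comm, mul_assoc]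

end Torus

end Q1.QuantumCI
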