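import Pool.Agent.Q1.QuantumCI.TraceOps
import Pool.Agent.Q1.QuantumCI.Bivariate

/-!
# The tower over an invariant element

If the first cohomology vanishes for all twists then every invariant element is, up to a nonzero
scalar, a value of the trace operator.
-/

namespace Q1.QuantumCI

open Finset Polynomial

section Defs

variable {F : Type*} [Field F] {N : Type*} [AddCommGroup N] [Module F N] {ι : Type*}

/-- twisted one-cocycles -/
def Coc (L R : ι → Module.End F N) (p : ι → ι → F) (a : ι → ℕ) (lam : ι → F) (δ : ι → N) : Prop :=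
  (∀ i j, L i (δ j) + lam j • R j (δ i) = p i j • (L j (δ i) + lam i • R i (δ j))) ∧
  ∀ i, ∑ r ∈ range (a i), (L i ^ r * (lam i • R i) ^ (a i - 1 - r)) (δ i) = 0

/-- vanishing of the twisted first cohomology -/
def H1 (L R : ι → Module.End F N) (p : ι → ι → F) (a : ι → ℕ) (lam : ι → F) : Prop :=
  ∀ δ, Coc L R p a lam δ → ∃ h, ∀ i, δ i = L i h - lam i • R i h

end Defs

section Scalars

variable {F : Type*} [Field F] (p : ℕ → ℕ → F)

/-- lower one entry of a multi-index -/
def dec (κ : ℕ → ℕ) (i : ℕ) : ℕ → ℕ := Function.update κ i (κ i - 1)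

/-- products of commutation scalars -/
def pr (S : Finset ℕ) (i : ℕ) (κ : ℕ → ℕ) : F := ∏ l ∈ S, p l i ^ κ l

variable {p}

theorem dec_same (κ : ℕ → ℕ) (i : ℕ) : dec κ i i = κ i - 1 := by simp [dec]

theorem dec_ne (κ : ℕ → ℕ) {i j : ℕ} (h : j ≠ i) : dec κ i j = κ j := by simp [dec, h]

theorem dec_comm (κ : ℕ → ℕ) {i j : ℕ} (h : i ≠ j) : dec (dec κ i) j = dec (dec κ j) i := by
  unfold dec
  rw [Function.update_of_ne h.symm, Function.update_of_ne h, Function.update_comm h]

theorem pr_dec (pp : ∀ i j, p i j * p j i = 1) (S : Finset ℕ) (i j : ℕ) (κ : ℕ → ℕ)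
    (h : 1 ≤ κ j) : pr p S i (dec κ j) = (if j ∈ S then p i j else 1) * pr p S i κ := by
  unfold pr
  split_ifs with hj
  · rw [← mul_prod_erase S _ hj, ← mul_prod_erase S (fun l => p l i ^ κ l) hj, dec_same]
    have h1 : ∏ x ∈ S.erase j, p x i ^ dec κ j x = ∏ x ∈ S.erase j, p x i ^ κ x :=
      prod_congr rfl fun x hx => by rw [dec_ne _ (ne_of_mem_erase hx)]
    rw [h1, ← mul_assoc]
    congr 1
    obtain ⟨b, hb⟩ : ∃ b, κ j = b + 1 := ⟨κ j - 1, by omega⟩
    rw [hb, Nat.add_sub_cancel, pow_succ, mul_comm (p i j), mul_assoc, mul_comm (p j i), pp, mul_one]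
  · rw [one_mul]
    refine prod_congr rfl fun x hx => ?_
    rw [dec_ne]
    rintro rfl
    exact hj hx

theorem p_ne (pp : ∀ i j, p i j * p j i = 1) (i j : ℕ) : p i j ≠ 0 :=
  left_ne_zero_of_mul_eq_one (pp i j)

theorem pr_ne (pp : ∀ i j, p i j * p j i = 1) (S : Finset ℕ) (i : ℕ) (κ : ℕ → ℕ) :
    pr p S i κ ≠ 0 :=
  prod_ne_zero_iff.2 fun l _ => pow_ne_zero _ (p_ne pp l i)

end Scalars

variable {F : Type*} [Field F] {N : Type*} [AddCommGroup N] [Module F N]
variable {L R : ℕ → Module.End F N} {p : ℕ → ℕ → F} {a : ℕ → ℕ}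

/-- the twist at a multi-index -/
noncomputable def lamb (p : ℕ → ℕ → F) (c : ℕ → ℕ → F) (n : ℕ) (κ : ℕ → ℕ) (i : ℕ) : F :=
  c i (κ i) * pr p (range n) i κ

/-- the defining relation of the tower at a multi-index -/
def TRel (L R : ℕ → Module.End F N) (p : ℕ → ℕ → F) (c : ℕ → ℕ → F) (n : ℕ)
    (v : (ℕ → ℕ) → N) (κ : ℕ → ℕ) : Prop :=
  ∀ i, (L i - lamb p c n κ i • R i) (v κ) =
    if κ i = 0 then 0 else pr p (range i) i κ • v (dec κ i)

/-- all standing assumptions -/
structure Setup (L R : ℕ → Module.End F N) (p : ℕ → ℕ → F) (a : ℕ → ℕ) (c : ℕ → ℕ → F)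
    (n : ℕ) : Prop where
  rel : OpRel L R p a
  pii : ∀ i, p i i = 1
  apos : ∀ i, 1 ≤ a i
  an : ∀ i, n ≤ i → a i = 1
  hc : ∀ i, ∏ t ∈ range (a i), (X - C (c i t)) = (X : F[X]) ^ a i - 1
  hc0 : ∀ i, c i 0 = 1

variable {c : ℕ → ℕ → F} {n : ℕ}

theorem pr_dec_self (S : Setup L R p a c n) (T : Finset ℕ) (i : ℕ) (κ : ℕ → ℕ) (h : 1 ≤ κ i) :
    pr p T i (dec κ i) = pr p T i κ := by
  rw [pr_dec S.rel.pp T i i κ h, S.pii]
  simp

theorem kill (S : Setup L R p a c n) (v : (ℕ → ℕ) → N) (i k : ℕ) :
    ∀ κ : ℕ → ℕ, κ i = k → (∀ κ' : ℕ → ℕ, (∀ j, j ≠ i → κ' j = κ j) → κ' i ≤ κ i → TRel L R p c n v κ') →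
    bi (S.rel.comm i i) (∏ t ∈ range (k + 1), lf (c i t * pr p (range n) i κ)) (v κ) = 0 := by
  induction k with
  | zero =>
    intro κ hk h
    rw [zero_add, prod_range_one, bi_lf]
    have := h κ (fun _ _ => rfl) le_rfl i
    rw [if_pos hk, lamb, hk] at this
    exact this
  | succ k ih =>
    intro κ hk h
    rw [prod_range_succ, map_mul, bi_lf, Module.End.mul_apply]
    have := h κ (fun _ _ => rfl) le_rfl i
    rw [if_neg (by omega), lamb, hk] at this
    rw [this, map_smul]
    have h1 := ih (dec κ i) (by rw [dec_same]; omega) (fun κ' h1 h2 => h κ'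
      (fun j hj => by rw [h1 j hj, dec_ne _ hj]) (by rw [dec_same] at h2; omega))
    rw [pr_dec_self S _ i κ (by omega)] at h1
    rw [h1, smul_zero]

theorem coc_of_tower (S : Setup L R p a c n) (v : (ℕ → ℕ) → N) (κ : ℕ → ℕ) (hκ : ∀ i, κ i < a i)
    (h : ∀ κ' : ℕ → ℕ, (∀ j, κ' j ≤ κ j) → κ' ≠ κ → TRel L R p c n v κ') :
    Coc L R p a (lamb p c n κ)
      (fun i => if κ i = 0 then 0 else pr p (range i) i κ • v (dec κ i)) := by
  have pp := S.rel.pp
  have hlt : ∀ j, κ j ≠ 0 → j < n := by
    intro j hj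
    by_contra hn
    have h1 := S.an j (not_lt.1 hn)
    have h2 := hκ j
    omega
  have hdec : ∀ j, κ j ≠ 0 → TRel L R p c n v (dec κ j) := by
    intro j hj
    refine h _ (fun i => ?_) ?_
    · rcases eq_or_ne i j with rfl | hi
      · rw [dec_same]; omega
      · rw [dec_ne _ hi]
    · intro e
      have := congrFun e j
      rw [dec_same] at this
      omega
  -- twist of a lowered index
  have hlam : ∀ i j, i ≠ j → κ j ≠ 0 → lamb p c n (dec κ j) i = p i j * lamb p c n κ i := by
    intro i j hij hj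
    rw [lamb, lamb, dec_ne _ hij, pr_dec pp _ _ _ _ (by omega), if_pos (mem_range.2 (hlt j hj))]
    ring
  refine ⟨fun i j => ?_, fun i => ?_⟩
  · rcases eq_or_ne i j with rfl | hij
    · rw [S.pii, one_smul]
    · -- rewrite in terms of the twisted operators
      have key : ∀ x y : N, (L i - (p i j * lamb p c n κ i) • R i) y =
          p i j • (L j - (p j i * lamb p c n κ j) • R j) x →
          L i y + lamb p c n κ j • R j x = p i j • (L j x + lamb p c n κ i • R i y) := by
        intro x y hxy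
        rw [LinearMap.sub_apply, LinearMap.sub_apply, LinearMap.smul_apply, LinearMap.smul_apply,
          sub_eq_iff_eq_add] at hxy
        rw [hxy, smul_sub, smul_smul, ← mul_assoc, pp, one_mul, smul_add, smul_smul]
        abel
      apply key
      by_cases hj : κ j = 0
      · simp only [hj, if_true, map_zero]
        by_cases hi : κ i = 0
        · simp [hi]
        · rw [if_neg hi, map_smul, ← hlam j i hij.symm hi, hdec i hi j,
            if_pos (by rw [dec_ne _ hij.symm, hj])]
          simp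
      · simp only [hj, if_false]
        rw [map_smul, ← hlam i j hij hj, hdec j hj i]
        by_cases hi : κ i = 0
        · rw [if_pos (by rw [dec_ne _ hij, hi]), if_pos hi]
          simp
        · rw [if_neg (by rwa [dec_ne _ hij]), if_neg hi, map_smul, ← hlam j i hij.symm hi,
            hdec i hi j, if_neg (by rwa [dec_ne _ hij.symm]), dec_comm κ hij, smul_smul, smul_smul,
            smul_smul]
          congr 1
          rw [pr_dec pp _ _ _ _ (by omega : 1 ≤ κ j), pr_dec pp _ _ _ _ (by omega : 1 ≤ κ i)]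
          rcases lt_or_gt_of_ne hij with h1 | h1
          · rw [if_neg (by simp; omega), if_pos (by simpa using h1)]
            have := pp i j
            linear_combination (-(pr p (range j) j κ * pr p (range i) i κ)) * this
          · rw [if_pos (by simpa using h1), if_neg (by simp; omega)]
            ring
  · by_cases hi : κ i = 0
    · simp [hi]
    · simp only [hi, if_false]
      rw [← LinearMap.sum_apply, ← bi_gs (S.rel.comm i i)]
      rw [lamb]
      obtain ⟨Q, hQ⟩ := gs_dvd (S.hc i) (pr_ne pp (range n) i κ) (hκ i)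
      rw [hQ, mul_comm, map_mul, Module.End.mul_apply, map_smul]
      have h1 := kill S v i (κ i - 1) (dec κ i) (dec_same κ i) (fun κ' h1 h2 => h κ' (fun j => by
        rcases eq_or_ne j i with rfl | hj
        · rw [dec_same] at h2; omega
        · rw [h1 j hj, dec_ne _ hj]) (fun e => by
          rw [dec_same, e] at h2; omega))
      rw [pr_dec_self S _ i κ (by omega), Nat.sub_add_cancel (by omega)] at h1
      rw [h1, smul_zero, map_zero]

theorem exists_tower (S : Setup L R p a c n) (u : N) (hu : ∀ i, L i u = R i u)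
    (hH : ∀ lam : ℕ → F, (∀ i, lam i ≠ 0) → H1 L R p a lam) (d : ℕ) :
    ∃ v : (ℕ → ℕ) → N, v 0 = u ∧
      ∀ κ : ℕ → ℕ, (∀ i, κ i < a i) → ∑ i ∈ range n, κ i ≤ d → TRel L R p c n v κ := by
  have pp := S.rel.pp
  induction d with
  | zero =>
    refine ⟨fun _ => u, rfl, fun κ hκ hs i => ?_⟩
    have h0 : ∀ j, κ j = 0 := by
      intro j
      rcases lt_or_ge j n with h1 | h1
      · exact (sum_eq_zero_iff.1 (Nat.le_zero.1 hs)) j (mem_range.2 h1)
      · have h1 := S.an j h1
        have h2 := hκ j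
        omega
    rw [if_pos (h0 i), lamb, h0 i, S.hc0, one_mul]
    have : pr p (range n) i κ = 1 := by
      unfold pr
      exact prod_eq_one fun l _ => by rw [h0 l, pow_zero]
    rw [this, one_smul, LinearMap.sub_apply, hu, sub_self]
  | succ d ih =>
    obtain ⟨v, hv0, hv⟩ := ih
    classical
    -- sums of smaller indices
    have hsum : ∀ κ κ' : ℕ → ℕ, (∀ i, κ i < a i) → (∀ j, κ' j ≤ κ j) → κ' ≠ κ →
        ∑ i ∈ range n, κ' i < ∑ i ∈ range n, κ i := by
      intro κ κ' hκ hle hne
      obtain ⟨j, hj⟩ := Function.ne_iff.1 hne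
      have hjn : j < n := by
        by_contra hn
        have h1 := S.an j (not_lt.1 hn)
        have h2 := hκ j
        have h3 := hle j
        omega
      exact sum_lt_sum (fun i _ => hle i) ⟨j, mem_range.2 hjn, lt_of_le_of_ne (hle j) hj⟩
    have hex : ∀ κ : ℕ → ℕ, (∀ i, κ i < a i) → ∑ i ∈ range n, κ i = d + 1 →
        ∃ h : N, ∀ i, (if κ i = 0 then 0 else pr p (range i) i κ • v (dec κ i)) =
          L i h - lamb p c n κ i • R i h := by
      intro κ hκ hs
      refine hH (lamb p c n κ) (fun i => ?_) _ (coc_of_tower S v κ hκ (fun κ' hle hne => ?_))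
      · refine mul_ne_zero ?_ (pr_ne pp _ _ _)
        intro h0
        have h1 := root_pow (S.hc i) (hκ i)
        rw [h0, zero_pow (by have := S.apos i; omega)] at h1
        exact zero_ne_one h1
      · have h1 := hsum κ κ' hκ hle hne
        exact hv κ' (fun i => lt_of_le_of_lt (hle i) (hκ i)) (by omega)
    choose! hf hhf using hex
    set v' : (ℕ → ℕ) → N := fun κ => if (∀ i, κ i < a i) ∧ ∑ i ∈ range n, κ i = d + 1 then hf κ
      else v κ with hv'
    have hsmall : ∀ κ : ℕ → ℕ, ∑ i ∈ range n, κ i ≤ d → v' κ = v κ := by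
      intro κ hs
      rw [hv']
      simp only
      rw [if_neg (by omega)]
    refine ⟨v', ?_, fun κ hκ hs i => ?_⟩
    · rw [hsmall 0 (by simp), hv0]
    · have hdecs : κ i ≠ 0 → ∑ j ∈ range n, dec κ i j ≤ d := by
        intro hi
        have := hsum κ (dec κ i) hκ (fun j => by
          rcases eq_or_ne j i with rfl | hj
          · rw [dec_same]; omega
          · rw [dec_ne _ hj]) (fun e => by
          have := congrFun e i
          rw [dec_same] at this
          omega)
        omega
      rcases Nat.lt_or_ge d (∑ i ∈ range n, κ i) with h1 | h1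
      · have hs' : ∑ i ∈ range n, κ i = d + 1 := by omega
        have h2 : v' κ = hf κ := by rw [hv']; simp only; rw [if_pos ⟨hκ, hs'⟩]
        rw [h2, LinearMap.sub_apply, LinearMap.smul_apply, ← hhf κ hκ hs' i]
        by_cases hi : κ i = 0
        · rw [if_pos hi, if_pos hi]
        · rw [if_neg hi, if_neg hi, hsmall _ (hdecs hi)]
      · rw [hsmall κ h1, hv κ hκ h1 i]
        by_cases hi : κ i = 0
        · rw [if_pos hi, if_pos hi]
        · rw [if_neg hi, if_neg hi, hsmall _ (hdecs hi)]

/-- descending along one variable -/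
theorem chain (S : Setup L R p a c n) (v : (ℕ → ℕ) → N) (i k : ℕ) :
    ∀ κ : ℕ → ℕ, κ i = k →
      (∀ κ' : ℕ → ℕ, (∀ j, j ≠ i → κ' j = κ j) → κ' i ≤ κ i → TRel L R p c n v κ') →
      ∃ s : F, s ≠ 0 ∧
        bi (S.rel.comm i i) (∏ t ∈ range k, lf (c i (t + 1) * pr p (range n) i κ)) (v κ) =
          s • v (Function.update κ i 0) := by
  induction k with
  | zero =>
    intro κ hk h
    refine ⟨1, one_ne_zero, ?_⟩
    have : Function.update κ i 0 = κ := by
      conv_rhs => rw [← Function.update_eq_self i κ, hk]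
    rw [range_zero, prod_empty, map_one, Module.End.one_apply, one_smul, this]
  | succ k ih =>
    intro κ hk h
    obtain ⟨s, hs, h1⟩ := ih (dec κ i) (by rw [dec_same]; omega) (fun κ' h1 h2 => h κ'
      (fun j hj => by rw [h1 j hj, dec_ne _ hj]) (by rw [dec_same] at h2; omega))
    refine ⟨pr p (range i) i κ * s, mul_ne_zero (pr_ne S.rel.pp _ _ _) hs, ?_⟩
    rw [prod_range_succ, map_mul, bi_lf, Module.End.mul_apply]
    have := h κ (fun _ _ => rfl) le_rfl i
    rw [if_neg (by omega), lamb, hk] at this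
    rw [this, map_smul]
    rw [pr_dec_self S _ i κ (by omega)] at h1
    rw [h1, smul_smul]
    congr 2
    unfold dec
    rw [Function.update_idem]

/-- the top index of the first `m` variables -/
def topk (a : ℕ → ℕ) (m : ℕ) : ℕ → ℕ := fun j => if j < m then a j - 1 else 0

theorem tr_tower (S : Setup L R p a c n) (v : (ℕ → ℕ) → N)
    (hv : ∀ κ : ℕ → ℕ, (∀ i, κ i < a i) → TRel L R p c n v κ) (m : ℕ) (hm : m ≤ n) :
    ∃ s : F, s ≠ 0 ∧ tr L R p a m (v (topk a m)) = s • v 0 := by
  induction m with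
  | zero =>
    refine ⟨1, one_ne_zero, ?_⟩
    have : topk a 0 = 0 := by
      funext j
      simp [topk]
    rw [tr, this, one_smul, Module.End.one_apply]
  | succ m ih =>
    obtain ⟨s, hs, h1⟩ := ih (by omega)
    have hb : ∀ j, topk a (m + 1) j < a j := by
      intro j
      have := S.apos j
      unfold topk
      split_ifs <;> omega
    have hpr : pr p (range n) m (topk a (m + 1)) = gam p a m m := by
      unfold pr gam
      rw [← prod_subset (range_subset_range.2 (by omega : m ≤ n))]
      · refine prod_congr rfl fun j hj => ?_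
        rw [mem_range] at hj
        rw [topk, if_pos (by omega)]
      · intro j _ hj
        rw [mem_range, not_lt] at hj
        rcases Nat.lt_or_ge m j with h2 | h2
        · rw [topk, if_neg (by omega), pow_zero]
        · have : j = m := by omega
          rw [this, S.pii, one_pow]
    have hk : topk a (m + 1) m = a m - 1 := by rw [topk, if_pos (by omega)]
    obtain ⟨s', hs', h2⟩ := chain S v m (a m - 1) (topk a (m + 1)) hk (fun κ' h1 h2 => hv κ' (fun j => by
      rcases eq_or_ne j m with rfl | hj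
      · exact lt_of_le_of_lt h2 (hb j)
      · rw [h1 j hj]; exact hb j))
    have hup : Function.update (topk a (m + 1)) m 0 = topk a m := by
      funext j
      rcases eq_or_ne j m with rfl | hj
      · rw [Function.update_self, topk, if_neg (by omega)]
      · rw [Function.update_of_ne hj, topk, topk]
        congr 1
        simp only [eq_iff_iff]
        omega
    rw [hpr, ← gs_zero (S.hc m) _ (S.hc0 m) (S.apos m), bi_gs, hup] at h2
    · refine ⟨s' * s, mul_ne_zero hs' hs, ?_⟩
      rw [tr, Module.End.mul_apply, tr1, h2, map_smul, h1, smul_smul]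
    · rw [← hpr]
      exact pr_ne S.rel.pp _ _ _

/-- Main result of this file: an invariant element is a value of the trace. -/
theorem exists_trace (S : Setup L R p a c n) (u : N) (hu : ∀ i, L i u = R i u)
    (hH : ∀ lam : ℕ → F, (∀ i, lam i ≠ 0) → H1 L R p a lam) :
    ∃ g : N, tr L R p a n g = u := by
  obtain ⟨v, hv0, hv⟩ := exists_tower S u hu hH (∑ i ∈ range n, a i)
  obtain ⟨s, hs, h1⟩ := tr_tower S v (fun κ hκ => hv κ hκ (sum_le_sum fun i _ => (hκ i).le)) n le_rfl
  refine ⟨s⁻¹ • v (topk a n), ?_⟩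
  rw [map_smul, h1, smul_smul, inv_mul_cancel₀ hs, one_smul, hv0]

end Q1.QuantumCI
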