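import Mathlib

/-!
# The trace operator of a quantum complete intersection

`L i`, `R i` are operators (left and right action of the `i`-th generator) on a space of linear maps.
We define the product `tr n` of the one variable trace operators
`∑ ν ^ (a - 1 - r) L ^ r R ^ (a - 1 - r)` and show that its values commute with the generators.
-/

namespace Q1.QuantumCI

open Finset

variable {F : Type*} [Field F] {E : Type*} [Ring E] [Algebra F E]

/-- one variable trace operator -/
noncomputable def tr1 (L R : E) (a : ℕ) (ν : F) : E :=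
  ∑ r ∈ range a, L ^ r * (ν • R) ^ (a - 1 - r)

/-- The relations between the operators of left and right action of the generators. -/
structure OpRel (L R : ℕ → E) (p : ℕ → ℕ → F) (a : ℕ → ℕ) : Prop where
  LL : ∀ i j, L i * L j = p i j • (L j * L i)
  RR : ∀ i j, R i * R j = p j i • (R j * R i)
  LR : ∀ i j, L i * R j = R j * L i
  Lp : ∀ i, L i ^ a i = 0
  Rp : ∀ i, R i ^ a i = 0
  pp : ∀ i j, p i j * p j i = 1

/-- the scalars in the trace -/
noncomputable def gam (p : ℕ → ℕ → F) (a : ℕ → ℕ) (i m : ℕ) : F :=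
  ∏ j ∈ range m, p j i ^ (a j - 1)

/-- the full trace operator for the first `m` variables -/
noncomputable def tr (L R : ℕ → E) (p : ℕ → ℕ → F) (a : ℕ → ℕ) : ℕ → E
  | 0 => 1
  | m + 1 => tr L R p a m * tr1 (L m) (R m) (a m) (gam p a m m)

variable {L R : ℕ → E} {p : ℕ → ℕ → F} {a : ℕ → ℕ}

theorem OpRel.L_pow (h : OpRel L R p a) (i j r : ℕ) : L i * L j ^ r = p i j ^ r • (L j ^ r * L i) := by
  induction r with
  | zero => simp
  | succ r ih =>
    rw [pow_succ, ← mul_assoc, ih, smul_mul_assoc, mul_assoc, h.LL i j, mul_smul_comm, smul_smul,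
      pow_succ, mul_assoc]

theorem OpRel.R_pow (h : OpRel L R p a) (i j r : ℕ) : R i * R j ^ r = p j i ^ r • (R j ^ r * R i) := by
  induction r with
  | zero => simp
  | succ r ih =>
    rw [pow_succ, ← mul_assoc, ih, smul_mul_assoc, mul_assoc, h.RR i j, mul_smul_comm, smul_smul,
      pow_succ, mul_assoc]

theorem OpRel.comm (h : OpRel L R p a) (i j : ℕ) : Commute (L i) (R j) := h.LR i j

theorem OpRel.step (h : OpRel L R p a) (i j : ℕ) (μ ν : F) :
    ∃ P : E, (L i - μ • R i) * tr1 (L j) (R j) (a j) ν =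
      P * (L i - (μ * p j i ^ (a j - 1)) • R i) := by
  refine ⟨∑ r ∈ range (a j), p i j ^ r • (L j ^ r * (ν • R j) ^ (a j - 1 - r)), ?_⟩
  rw [tr1, mul_sum, sum_mul]
  refine sum_congr rfl fun r hr => ?_
  rw [mem_range] at hr
  have hpp : p i j ^ r * p j i ^ r = 1 := by rw [← mul_pow, h.pp, one_pow]
  have h1 : (L i - μ • R i) * (L j ^ r * (ν • R j) ^ (a j - 1 - r)) =
      p i j ^ r • (L j ^ r * (ν • R j) ^ (a j - 1 - r) * L i) -
        (μ * p j i ^ (a j - 1 - r)) • (L j ^ r * (ν • R j) ^ (a j - 1 - r) * R i) := by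
    rw [sub_mul]
    congr 1
    · rw [← mul_assoc, h.L_pow, smul_mul_assoc, mul_assoc, mul_assoc]
      congr 2
      exact (((h.comm i j).smul_right ν).pow_right _).eq
    · rw [smul_mul_assoc, mul_smul]
      congr 1
      rw [← mul_assoc, ← ((h.comm j i).pow_left r).eq, mul_assoc, mul_assoc, ← mul_smul_comm]
      congr 1
      rw [smul_pow, mul_smul_comm, h.R_pow, smul_mul_assoc, smul_comm]
  rw [h1, mul_sub, smul_mul_assoc, smul_mul_assoc]
  congr 1
  rw [mul_smul_comm, smul_smul]
  congr 1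
  have : a j - 1 = r + (a j - 1 - r) := by omega
  calc μ * p j i ^ (a j - 1 - r) = μ * ((p i j ^ r * p j i ^ r) * p j i ^ (a j - 1 - r)) := by
        rw [hpp, one_mul]
    _ = p i j ^ r * (μ * p j i ^ (r + (a j - 1 - r))) := by rw [pow_add]; ring
    _ = _ := by rw [← this]

theorem OpRel.tr_comm (h : OpRel L R p a) (i m : ℕ) :
    ∃ P : E, (L i - R i) * tr L R p a m = P * (L i - gam p a i m • R i) := by
  induction m with
  | zero => exact ⟨1, by simp [tr, gam]⟩
  | succ m ih =>
    obtain ⟨P, hP⟩ := ih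
    obtain ⟨Q, hQ⟩ := h.step i m (gam p a i m) (gam p a m m)
    refine ⟨P * Q, ?_⟩
    rw [tr, ← mul_assoc, hP, mul_assoc, hQ, mul_assoc]
    congr 3
    rw [gam, gam, prod_range_succ]

theorem OpRel.tr_zero (h : OpRel L R p a) (i m : ℕ) (hi : i < m) :
    (L i - R i) * tr L R p a m = 0 := by
  induction m with
  | zero => omega
  | succ m ih =>
    rcases Nat.lt_succ_iff_lt_or_eq.mp hi with h1 | h1
    · rw [tr, ← mul_assoc, ih h1, zero_mul]
    · subst h1
      obtain ⟨P, hP⟩ := h.tr_comm i i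
      rw [tr, ← mul_assoc, hP, mul_assoc]
      have hc : Commute (L i) (gam p a i i • R i) := (h.comm i i).smul_right _
      have := hc.mul_geom_sum₂ (a i)
      rw [tr1, this, h.Lp, smul_pow, h.Rp, smul_zero, sub_zero, mul_zero]

end Q1.QuantumCI
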